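import Pool.Agent.X232.CF.P.Loop
set_option autoImplicit false

/-!
The conditions of the theorem on plane curves in elementary form.
-/

namespace Pool.Agent.X232.CF.P

open Polynomial

open Pool.Agent.TH826.GA (GRing gpol gcst gu coe_gu gent vert splx vtx eval_vtx al al_T)

open Pool.Agent.TH826.MK (KQ symb Torus circ Unramified)

open Pool.Agent.Y797.IV (Clears GenPos)

open Pool.Agent.X232.CU (sy map_sy symb_eq_sy span_symb kq_rat_zero)

variable {K : Type*} [Field K] {m : ℕ} {s r : Fin (m + 1) → K}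

theorem vtx_line (hs : Function.Injective s) {T : Fin (1 + 1) → Fin (m + 1)}
    (hT : Function.Injective T) (i : Fin (1 + 1)) :
    vtx (cS s) r T 1 = s (T i) * vtx (cS s) r T 0 + r (T i) := by
  have h := eval_vtx (c := cS s) (a := r) T (T i)
  simp only [al_T T (det_cS_ne hs T hT)] at h
  rw [Fin.sum_univ_two] at h
  have h2 : ∑ l, (if i = l then (1 : K) else 0) * r (T l) = r (T i) := by
    rw [Finset.sum_eq_single i]
    · rw [if_pos rfl, one_mul]
    · intro j _ hj
      rw [if_neg fun h => hj h.symm, zero_mul]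
    · intro h
      exact absurd (Finset.mem_univ i) h
  have h3 : -s (T i) * vtx (cS s) r T 0 + 1 * vtx (cS s) r T 1 = r (T i) := by
    refine Eq.trans h ?_
    rw [← h2]
  linear_combination h3

theorem vtx_zero (hs : Function.Injective s) {T : Fin (1 + 1) → Fin (m + 1)}
    (hT : Function.Injective T) :
    vtx (cS s) r T 0 = (r (T 1) - r (T 0)) / (s (T 0) - s (T 1)) := by
  have h0 := vtx_line (r := r) hs hT 0
  have h1 := vtx_line (r := r) hs hT 1
  have h2 : s (T 0) - s (T 1) ≠ 0 := by
    rw [sub_ne_zero]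
    intro h
    exact absurd (hT (hs h)) (by decide)
  rw [eq_div_iff h2]
  linear_combination h1 - h0

theorem clears_of (hs : Function.Injective s) (is : ∀ e, IsIntegral ℤ (s e))
    (ir : ∀ e, IsIntegral ℤ (r e)) {D : K} (hD0 : D ≠ 0) (hDi : IsIntegral ℤ D)
    (hD : ∀ e f, e ≠ f → IsIntegral ℤ (D * ((r f - r e) / (s e - s f)))) :
    Clears (cS s) r D := by
  refine ⟨hD0, hDi, fun T hT => ?_⟩
  have hT' : Function.Injective T := by
    intro i j hij
    by_contra hne
    apply hT
    rw [det_cS]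
    have h : T 1 = T 0 := by
      fin_cases i <;> fin_cases j
      · exact absurd rfl hne
      · exact hij.symm
      · exact hij
      · exact absurd rfl hne
    rw [h, sub_self]
  have hx : IsIntegral ℤ (D * vtx (cS s) r T 0) := by
    rw [vtx_zero hs hT']
    exact hD _ _ fun h => absurd (hT' h) (by decide)
  intro j
  fin_cases j
  · exact hx
  · show IsIntegral ℤ (D * vtx (cS s) r T 1)
    rw [vtx_line hs hT' 0]
    have e : D * (s (T 0) * vtx (cS s) r T 0 + r (T 0)) =
        s (T 0) * (D * vtx (cS s) r T 0) + D * r (T 0) := by ring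
    rw [e]
    exact ((is _).mul hx).add (hDi.mul (ir _))

theorem genPos_of (hs : Function.Injective s)
    (hr : ∀ e f g, e ≠ f → f ≠ g → e ≠ g → ∀ x y : K,
      ¬ (y = s e * x + r e ∧ y = s f * x + r f ∧ y = s g * x + r g)) : GenPos (cS s) r := by
  refine ⟨fun T hT => det_cS_ne hs T hT, fun S hS x => ?_⟩
  by_contra hcon
  push Not at hcon
  have key : ∀ i, x 1 = s (S i) * x 0 + r (S i) := by
    intro i
    have h := hcon i
    rw [Fin.sum_univ_two] at h
    have h' : -s (S i) * x 0 + 1 * x 1 = r (S i) := h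
    linear_combination h'
  have n01 : S 0 ≠ S 1 := fun h => absurd (hS h) (by decide)
  have n12 : S 1 ≠ S 2 := fun h => absurd (hS h) (by decide)
  have n02 : S 0 ≠ S 2 := fun h => absurd (hS h) (by decide)
  exact hr _ _ _ n01 n12 n02 (x 0) (x 1) ⟨key 0, key 1, key 2⟩

theorem card_TT (m : ℕ) : Nat.card (TT m) = m.choose 2 := by
  unfold TT
  rw [Nat.card_eq_fintype_card, Fintype.card_finset_len, Fintype.card_fin]

theorem kq_zero_of [CharZero K] (h : Function.Surjective (algebraMap ℚ K)) (z : KQ K 2) :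
    z = 0 := by
  have h1 : z ∈ Submodule.span ℚ (Set.range (symb : (Fin 2 → Kˣ) → _)) := by
    rw [span_symb]
    trivial
  have hu : ∀ u : Kˣ, ∃ q : ℚˣ, Units.map (algebraMap ℚ K : ℚ →* K) q = u := by
    intro u
    obtain ⟨q, hq⟩ := h (u : K)
    have hq0 : q ≠ 0 := by
      rintro rfl
      rw [map_zero] at hq
      exact u.ne_zero hq.symm
    refine ⟨Units.mk0 q hq0, ?_⟩
    ext
    exact hq
  induction h1 using Submodule.span_induction with
  | mem z hz =>
    obtain ⟨u, rfl⟩ := hz
    obtain ⟨a, ha⟩ := hu (u 0)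
    obtain ⟨b, hb⟩ := hu (u 1)
    rw [symb_eq_sy, ← ha, ← hb]
    have e := map_sy (algebraMap ℚ K) a b
    have e2 : sy (Units.map (algebraMap ℚ K : ℚ →* K) a) (Units.map (algebraMap ℚ K : ℚ →* K) b) =
        KQ.map 2 (algebraMap ℚ K) (sy a b) := e.symm
    rw [e2, kq_rat_zero (sy a b), map_zero]
  | zero => rfl
  | add x y _ _ hx hy => rw [hx, hy, add_zero]
  | smul q x _ hx => rw [hx, smul_zero]

theorem konst_bot {A : Type*} [CommRing A] (cst : K →+* A) (L : Type*) [Field L] [Algebra A L]
    [NumberField K] (h : Module.finrank ℚ K = 1) : konst cst L = ⊥ := by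
  have hs : Function.Surjective (algebraMap ℚ K) := by
    intro y
    obtain ⟨v, hv, h⟩ := finrank_eq_one_iff'.1 h
    obtain ⟨a, ha⟩ := h 1
    obtain ⟨b, hb⟩ := h y
    have ha0 : a ≠ 0 := by
      rintro rfl
      rw [zero_smul] at ha
      exact zero_ne_one ha
    refine ⟨b / a, ?_⟩
    rw [← hb, Algebra.smul_def]
    rw [Algebra.smul_def] at ha
    have h3 : algebraMap ℚ K a ≠ 0 := (_root_.map_ne_zero _).2 ha0
    rw [map_div₀, div_eq_iff h3, mul_assoc, mul_comm v, ha, mul_one]
  rw [eq_bot_iff]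
  rintro _ ⟨κ, rfl⟩
  rw [kq_zero_of hs κ, map_zero]
  exact Submodule.zero_mem _

end Pool.Agent.X232.CF.P
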