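import Pool.Agent.TH826.GA.Final
set_option autoImplicit false

/-!
Families of tori in the complex varieties `∏_e H_e = η` at a point where `d + 1` of the `H_e` vanish
and are coordinates: the radii can be varied.
-/

namespace Pool.Agent.X232.CF.P

open Filter Topology

open Pool.Agent.TH826.MK

open Pool.Agent.TH826.SX

open Pool.Agent.TH826.GA

section pts

variable {d : ℕ} {ι : Type*} [Fintype ι] [DecidableEq ι] {T : Fin (d + 1) → ι}
  {H : ι → (Fin d → ℂ) × ℂ → ℂ}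

/-- The tori at the vertices. -/
theorem exists_points_fam (hT : Function.Injective T) (hH : ∀ e, ContDiff ℂ 2 (H e))
    (hTH : ∀ j u, H (T j) u = (Fin.cons u.2 u.1 : Fin (d + 1) → ℂ) j)
    (hH0 : ∀ e, (∀ j, T j ≠ e) → H e 0 ≠ 0) {ε : ℝ} (hε : 0 < ε) :
    ∃ ρ1 : ℝ, 0 < ρ1 ∧ ∃ η0 : ℝ, 0 < η0 ∧ ∀ η : ℂ, η ≠ 0 → ‖η‖ < η0 → Real.log ‖η‖ < 0 ∧
      ∀ ρ : ℝ, ρ1 / 2 < ρ → ρ < ρ1 →
      ∃ X : (Fin d → ℝ) → (Fin d → ℂ) × ℂ, ContDiff ℝ 2 X ∧
        (∀ θ i, X (θ + Pi.single i 1) = X θ) ∧ (∀ θ, ∏ e, H e (X θ) = η) ∧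
        (∀ e, Good fun θ => H e (X θ)) ∧
        (∀ (k : Fin d) θ, H (T k.succ) (X θ) = circ ρ (θ k)) ∧
        ∀ e θ, |Real.log ‖H e (X θ)‖ / Real.log ‖η‖ - rowT T e 0| ≤ ε ∧
          ∀ j, ‖lw (fun θ => H e (X θ)) j θ -
            2 * Real.pi * Complex.I * rowT T e j.succ‖ ≤ ε := by
  obtain ⟨Y, hY, hY0, hYQ⟩ := exists_solution (QH T H) (contDiff_QH hH) (QH_ne hH0)
  choose φ hφ1 hφ2 hφ3 using exists_factor hT hH hTH hH0 hY hY0 hYQ
  choose C hC using fun e => exists_nice (hφ1 e) (hφ2 e)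
  have hall := (hY.eventually (by norm_num)).and (hYQ.and
    ((eventually_all.2 fun e => hφ3 e).and (eventually_all.2 fun e => hC e)))
  obtain ⟨δ, hδ, hball⟩ := Metric.eventually_nhds_iff.1 hall
  set C0 : ℝ := ∑ e, |C e| with hC0
  have hC00 : 0 ≤ C0 := Finset.sum_nonneg fun k _ => abs_nonneg _
  have hCle : ∀ e, C e ≤ C0 := fun e =>
    (le_abs_self _).trans (Finset.single_le_sum (f := fun e => |C e|)
      (fun j _ => abs_nonneg _) (Finset.mem_univ e))
  have hnice : ∀ e, Nice δ C0 (φ e) := by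
    intro e ζ hζ
    obtain ⟨-, -, -, h⟩ := hball (y := ζ) (by rwa [dist_zero_right])
    obtain ⟨a1, a2, a3, a4⟩ := h e
    exact ⟨a1, a2, a3.trans (hCle e), a4.trans (hCle e)⟩
  set ρ1 : ℝ := min (δ / 2) (ε / (2 * Real.pi * (C0 + 1))) with hρdef
  have hpi := Real.pi_pos
  have hρ1 : 0 < ρ1 := lt_min (by linarith) (by positivity)
  have hρ1δ : ρ1 < δ := (min_le_left _ _).trans_lt (by linarith)
  have hρ1ε : C0 * (2 * Real.pi * ρ1) ≤ ε := by
    have h1 : ρ1 ≤ ε / (2 * Real.pi * (C0 + 1)) := min_le_right _ _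
    rw [le_div_iff₀ (by positivity)] at h1
    calc C0 * (2 * Real.pi * ρ1) ≤ (C0 + 1) * (2 * Real.pi * ρ1) :=
          mul_le_mul_of_nonneg_right (by linarith) (by positivity)
      _ = ρ1 * (2 * Real.pi * (C0 + 1)) := by ring
      _ ≤ ε := h1
  set Lb : ℝ := |Real.log (ρ1 / 2)| + |Real.log ρ1| with hLb
  have hLb0 : 0 ≤ Lb := by positivity
  set M : ℝ := (C0 + (d + 1) * Lb) / ε + 1 with hM
  have hM1 : 1 ≤ M := by
    have : 0 ≤ (C0 + (d + 1) * Lb) / ε := by positivity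
    rw [hM]
    linarith
  refine ⟨ρ1, hρ1, min ((ρ1 / 2) ^ (d + 1)) (Real.exp (-M)),
    lt_min (by positivity) (Real.exp_pos _), fun η hη0 hη => ?_⟩
  have hlog : Real.log ‖η‖ < -M := by
    rw [Real.log_lt_iff_lt_exp (norm_pos_iff.2 hη0)]
    exact hη.trans_le (min_le_right _ _)
  have hlog0 : Real.log ‖η‖ ≠ 0 := by linarith
  have habs : M ≤ |Real.log ‖η‖| := by
    rw [abs_of_neg (by linarith)]
    linarith
  refine ⟨by linarith, fun ρ hρa hρb => ?_⟩
  have hρ : 0 < ρ := lt_trans (by positivity) hρa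
  have hρδ : ρ < δ := hρb.trans hρ1δ
  have hρε : C0 * (2 * Real.pi * ρ) ≤ ε :=
    le_trans (mul_le_mul_of_nonneg_left (mul_le_mul_of_nonneg_left hρb.le (by positivity)) hC00)
      hρ1ε
  have hηρ : ‖η‖ ≤ ρ ^ (d + 1) :=
    ((hη.trans_le (min_le_left _ _)).le).trans
      (pow_le_pow_left₀ (by positivity) hρa.le _)
  have hlogρ : |Real.log ρ| ≤ Lb := by
    have h1 : Real.log (ρ1 / 2) ≤ Real.log ρ := Real.log_le_log (by positivity) hρa.le
    have h2 : Real.log ρ ≤ Real.log ρ1 := Real.log_le_log hρ hρb.le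
    have h3 := neg_abs_le (Real.log (ρ1 / 2))
    have h4 := le_abs_self (Real.log ρ1)
    have h5 := abs_nonneg (Real.log (ρ1 / 2))
    have h6 := abs_nonneg (Real.log ρ1)
    rw [abs_le]
    constructor <;> linarith
  have hz : ∀ θ : Fin d → ℝ, ‖zt ρ η θ‖ < δ := fun θ => (norm_zt_le hρ hηρ θ).trans_lt hρδ
  have hb := fun θ : Fin d → ℝ => hball (y := zt ρ η θ) (by rw [dist_zero_right]; exact hz θ)
  set X : (Fin d → ℝ) → (Fin d → ℂ) × ℂ := fun θ => ((zt ρ η θ).1, Y (zt ρ η θ)) with hX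
  have hfac : ∀ e, (fun θ => H e (X θ)) = fun θ => mT T e (zt ρ η θ) * φ e (zt ρ η θ) :=
    fun e => funext fun θ => (hb θ).2.2.1 e
  have hg : ∀ e, Good fun θ => φ e (zt ρ η θ) := fun e => good_nice hρ hρδ hη0 hηρ (hnice e)
  refine ⟨X, ?_, fun θ i => ?_, fun θ => ?_, fun e => ?_, fun k θ => ?_, fun e θ => ?_⟩
  · rw [contDiff_iff_contDiffAt]
    intro θ
    have h1 : ContDiffAt ℝ 2 (fun ζ : (Fin d → ℂ) × ℂ => (ζ.1, Y ζ)) (zt ρ η θ) := by
      refine ContDiffAt.restrict_scalars ℝ (𝕜' := ℂ) ?_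
      exact contDiffAt_fst.prodMk (hb θ).1
    exact h1.comp θ (contDiff_zt hρ hη0).contDiffAt
  · simp only [hX]
    rw [zt_add_single]
  · rw [prod_H hT hTH]
    have h1 : Y (zt ρ η θ) * QH T H ((zt ρ η θ).1, Y (zt ρ η θ)) = (zt ρ η θ).2 := (hb θ).2.1
    show (∏ k, (zt ρ η θ).1 k) * (Y (zt ρ η θ) * QH T H ((zt ρ η θ).1, Y (zt ρ η θ))) = η
    rw [h1]
    exact mul_div_cancel₀ _ ((good_prod_circ hρ).ne_zero θ)
  · rw [hfac e]
    exact (mT_props hT hρ hη0 e).1.mul (hg e)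
  · rw [hTH]
    rfl
  · have hl := fun j => lw_nice hρ hρδ hη0 hηρ (hnice e) j θ
    obtain ⟨hm1, hm2, hm3⟩ := mT_props hT hρ hη0 e
    have hn := (hnice e) _ (hz θ)
    have hpos : 0 < |Real.log ‖η‖| := abs_pos.2 hlog0
    have hbound : C0 + (d + 1) * |Real.log ρ| ≤ ε * |Real.log ‖η‖| := by
      have h1 : (C0 + (d + 1) * Lb) / ε ≤ |Real.log ‖η‖| := by linarith
      rw [div_le_iff₀ hε] at h1
      have h2 : ((d : ℝ) + 1) * |Real.log ρ| ≤ (d + 1) * Lb :=
        mul_le_mul_of_nonneg_left hlogρ (by positivity)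
      linarith
    refine ⟨?_, fun j => ?_⟩
    · rw [congrFun (hfac e) θ, norm_mul, Real.log_mul (norm_ne_zero_iff.2 (hm1.ne_zero θ))
        (norm_ne_zero_iff.2 hn.2.1)]
      have e' : (Real.log ‖mT T e (zt ρ η θ)‖ + Real.log ‖φ e (zt ρ η θ)‖) /
          Real.log ‖η‖ - rowT T e 0 = ((Real.log ‖mT T e (zt ρ η θ)‖ -
            rowT T e 0 * Real.log ‖η‖) + Real.log ‖φ e (zt ρ η θ)‖) / Real.log ‖η‖ := by
        field_simp
        ring
      rw [e', abs_div, div_le_iff₀ hpos]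
      refine (abs_add_le _ _).trans ?_
      have := hm3 θ
      have := hn.2.2.1
      linarith
    · rw [hfac e, lw_mul hm1 (hg e), hm2, add_sub_cancel_left]
      exact (hl j).trans hρε

end pts

section main

variable {K : Type*} [Field K] {d m : ℕ} {c : Fin (m + 1) → Fin (d + 1) → K}
  {a : Fin (m + 1) → K}

theorem exists_torus_fam (σ : K →+* ℂ)
    (hdet : ∀ T : Fin (d + 1) → Fin (m + 1), Function.Injective T → (cm c T).det ≠ 0)
    (hgen : ∀ S : Fin (d + 2) → Fin (m + 1), Function.Injective S → ∀ x : Fin (d + 1) → K,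
      ∃ i, ∑ j, c (S i) j * x j ≠ a (S i))
    {T : Fin (d + 1) → Fin (m + 1)} (hT : Function.Injective T) {ε : ℝ} (hε : 0 < ε) :
    ∃ ρ1 : ℝ, 0 < ρ1 ∧ ∃ Λ : ℝ, 1 < Λ ∧ ∀ lam : K, Λ ≤ ‖σ lam‖ → ∀ ρ : ℝ, ρ1 / 2 < ρ → ρ < ρ1 →
      ∃ Γ : Torus (GRing lam c a) d,
      (∀ θ x, Γ.e θ (gcst lam c a x) = σ x) ∧
      (∀ (k : Fin d) θ, Γ.e θ (gu lam c a (T k.succ) : GRing lam c a) = circ ρ (θ k)) ∧
      ∀ S : Fin (d + 2) → Fin (m + 1), Function.Injective S →
        |Γ.reg (symb (gent lam c a S)) / (-Real.log ‖σ lam‖) -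
          (2 * Real.pi) ^ d * (dif fun i => rowT T (S i)).det| ≤ ε := by
  classical
  choose δ hδ hclose using fun S : Fin (d + 2) → Fin (m + 1) =>
    pairing_close (dif fun i => rowT T (S i)) hε
  obtain ⟨S0, -, hS0⟩ := Finset.exists_min_image Finset.univ δ
    ⟨fun _ => 0, Finset.mem_univ _⟩
  set δ0 : ℝ := δ S0 / 5 with hδ0
  have hδ0pos : 0 < δ0 := by
    have := hδ S0
    rw [hδ0]
    linarith
  have hδle : ∀ S, 4 * δ0 < δ S := by
    intro S
    have h1 := hS0 S (Finset.mem_univ S)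
    have h2 := hδ S0
    rw [hδ0]
    linarith
  obtain ⟨ρ1, hρ1, η0, hη0, hX⟩ := exists_points_fam
    (H := fun e u => lc σ c a (xv σ c a T u) e) hT
    (fun e => contDiff_lc σ T e)
    (fun j u => by
      rw [lc_xv, be_T T (hdet T hT)]
      simp only [al_T T (hdet T hT)]
      simp)
    (fun e he => by
      rw [lc_xv]
      have h0 : ∀ l : Fin (d + 1), (Fin.cons (0 : (Fin d → ℂ) × ℂ).2 (0 : (Fin d → ℂ) × ℂ).1 :
          Fin (d + 1) → ℂ) l = 0 := fun l => by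
        refine Fin.cases ?_ (fun l => ?_) l
        · rfl
        · rfl
      simp only [h0, mul_zero, Finset.sum_const_zero, zero_add]
      exact (map_ne_zero σ).2 (be_ne hdet hgen hT he)) hδ0pos
  set G : ℝ := ∑ S : Fin (d + 2) → Fin (m + 1), ∑ i, |Real.log ‖σ (gam c S i)‖| with hG
  have hG0 : 0 ≤ G := Finset.sum_nonneg fun S _ => Finset.sum_nonneg fun i _ => abs_nonneg _
  have hGS : ∀ S i, |Real.log ‖σ (gam c S i)‖| ≤ G := fun S i =>
    (Finset.single_le_sum (f := fun i => |Real.log ‖σ (gam c S i)‖|)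
      (fun i _ => abs_nonneg _) (Finset.mem_univ i)).trans
    (Finset.single_le_sum (f := fun S => ∑ i, |Real.log ‖σ (gam c S i)‖|)
      (fun S _ => Finset.sum_nonneg fun i _ => abs_nonneg _) (Finset.mem_univ S))
  have hinvpos : 0 < 1 / η0 := by positivity
  refine ⟨ρ1, hρ1, 1 / η0 + 2 + Real.exp (G / δ0), by
    have := Real.exp_pos (G / δ0)
    linarith, fun lam hlam ρ hρa hρb => ?_⟩
  have hexp := Real.exp_pos (G / δ0)
  have hln : 0 < ‖σ lam‖ := by linarith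
  have hl0 : σ lam ≠ 0 := norm_pos_iff.1 hln
  have hη : ‖(σ lam)⁻¹‖ < η0 := by
    rw [norm_inv, inv_lt_comm₀ hln hη0, ← one_div]
    linarith
  obtain ⟨hlog, hX'⟩ := hX _ (inv_ne_zero hl0) hη
  obtain ⟨U, hUc, hUp, hUe, hUg, hUr, hUest⟩ := hX' ρ hρa hρb
  have hlogeq : Real.log ‖(σ lam)⁻¹‖ = -Real.log ‖σ lam‖ := by rw [norm_inv, Real.log_inv]
  rw [hlogeq] at hlog hUest
  have hbig : G ≤ δ0 * |(-Real.log ‖σ lam‖)| := by
    have h1 : G / δ0 ≤ Real.log ‖σ lam‖ := by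
      rw [Real.le_log_iff_exp_le hln]
      linarith
    rw [div_le_iff₀ hδ0pos] at h1
    rw [abs_of_neg hlog, neg_neg]
    linarith
  set s : ℝ := -Real.log ‖σ lam‖ with hs
  have hs0 : s ≠ 0 := hlog.ne
  have hspos : 0 < |s| := abs_pos.2 hs0
  have hgs : ∀ S i, |Real.log ‖σ (gam c S i)‖ / s| ≤ δ0 := by
    intro S i
    rw [abs_div, div_le_iff₀ hspos]
    exact (hGS S i).trans hbig
  set X : (Fin d → ℝ) → (Fin (d + 1) → ℂ) := fun θ => xv σ c a T (U θ) with hXdef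
  have hXc : ContDiff ℝ 2 X := ((contDiff_xv σ T).restrict_scalars ℝ).comp hUc
  have hXp : ∀ θ i, X (θ + Pi.single i 1) = X θ := fun θ i => by
    simp only [hXdef, hUp]
  have hPt : ∀ θ, Pool.Agent.TH826.GA.Pt σ lam c a (X θ) := fun θ => by
    have h1 : ∏ e, lc σ c a (X θ) e = (σ lam)⁻¹ := hUe θ
    unfold Pool.Agent.TH826.GA.Pt
    rw [h1]
    exact mul_inv_cancel₀ hl0
  refine ⟨mkG X hXc hXp hPt, fun θ x => evG_gcst (hPt θ) x, fun k θ => ?_, fun S hS => ?_⟩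
  · have h1 := evG_gu (hPt θ) (T k.succ)
    exact h1.trans (hUr k θ)
  rw [Torus.reg_symb]
  set Γ := mkG X hXc hXp hPt with hΓ
  have hγ : ∀ i, gam c S i ≠ 0 := by
    intro i
    unfold gam
    exact mul_ne_zero (pow_ne_zero _ (by norm_num)) (hdet _ (injective_face hS i))
  have hγc : ∀ i, σ (gam c S i) ≠ 0 := fun i => (map_ne_zero σ).2 (hγ i)
  have hgz : ∀ i, Γ.fn (gz lam c a S i : GRing lam c a) =
      fun θ => σ (gam c S i) * lc σ c a (X θ) (S i) := fun i =>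
    mkG_gz X hXc hXp hPt S i (hγ i)
  have hgoodZ : ∀ i, Good (Γ.fn (gz lam c a S i : GRing lam c a)) := fun i => Γ.good _
  have hgoodE : ∀ l, Good (Γ.fn (gent lam c a S l : GRing lam c a)) := fun l => Γ.good _
  -- estimates for the `γ_i L_{S i}`
  have hZlog : ∀ i θ, |Real.log ‖Γ.fn (gz lam c a S i : GRing lam c a) θ‖ / s -
      rowT T (S i) 0| ≤ 2 * δ0 := by
    intro i θ
    rw [congrFun (hgz i) θ, norm_mul, Real.log_mul (norm_ne_zero_iff.2 (hγc i))
      (norm_ne_zero_iff.2 ((hUg (S i)).ne_zero θ)), add_div]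
    have h1 := hgs S i
    have h2 := (hUest (S i) θ).1
    have h3 := abs_le.1 h1
    have h4 := abs_le.1 h2
    rw [abs_le]
    constructor <;> linarith [h3.1, h3.2, h4.1, h4.2]
  have hZlw : ∀ i j θ, ‖lw (Γ.fn (gz lam c a S i : GRing lam c a)) j θ -
      2 * Real.pi * Complex.I * rowT T (S i) j.succ‖ ≤ δ0 := by
    intro i j θ
    have h1 := lw_mul (good_const (d := d) (hγc i)) (hUg (S i)) j θ
    rw [lw_const, zero_add] at h1
    rw [hgz i]
    have h2 : lw (fun θ => σ (gam c S i) * lc σ c a (X θ) (S i)) j θ =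
      lw (fun θ => lc σ c a (xv σ c a T (U θ)) (S i)) j θ := h1
    rw [h2]
    exact (hUest (S i) θ).2 j
  have hmul : ∀ l : Fin (d + 1), (fun θ => Γ.fn (gent lam c a S l : GRing lam c a) θ *
      Γ.fn (gz lam c a S 0 : GRing lam c a) θ) = Γ.fn (gz lam c a S l.succ : GRing lam c a) := by
    intro l
    funext θ
    unfold Torus.fn
    rw [← map_mul, ← Units.val_mul]
    congr 2
    exact div_mul_cancel _ _
  refine hclose S _ _ hs0 hgoodE (fun l θ => ?_) (fun l j θ => ?_)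
  · have h1 := hZlog l.succ θ
    have h2 := hZlog 0 θ
    have h3 : Real.log ‖Γ.fn (gent lam c a S l : GRing lam c a) θ *
        Γ.fn (gz lam c a S 0 : GRing lam c a) θ‖ =
        Real.log ‖Γ.fn (gz lam c a S l.succ : GRing lam c a) θ‖ :=
      congrArg (fun z : ℂ => Real.log ‖z‖) (congrFun (hmul l) θ)
    rw [norm_mul, Real.log_mul (norm_ne_zero_iff.2 ((hgoodE l).ne_zero θ))
      (norm_ne_zero_iff.2 ((hgoodZ 0).ne_zero θ))] at h3
    have h4 : Real.log ‖Γ.fn (gent lam c a S l : GRing lam c a) θ‖ =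
        Real.log ‖Γ.fn (gz lam c a S l.succ : GRing lam c a) θ‖ -
        Real.log ‖Γ.fn (gz lam c a S 0 : GRing lam c a) θ‖ := by
      linarith
    rw [h4, sub_div]
    have e : (dif fun i => rowT T (S i)) l 0 =
        rowT T (S l.succ) 0 - rowT T (S 0) 0 := rfl
    rw [e]
    refine lt_of_le_of_lt ?_ (hδle S)
    have h5 := abs_le.1 h1
    have h6 := abs_le.1 h2
    rw [abs_le]
    constructor <;> linarith [h5.1, h5.2, h6.1, h6.2]
  · have h1 := hZlw l.succ j θ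
    have h2 := hZlw 0 j θ
    have h3 := lw_mul (hgoodE l) (hgoodZ 0) j θ
    rw [hmul l] at h3
    have h4 : lw (Γ.fn (gent lam c a S l : GRing lam c a)) j θ =
        lw (Γ.fn (gz lam c a S l.succ : GRing lam c a)) j θ -
        lw (Γ.fn (gz lam c a S 0 : GRing lam c a)) j θ := by
      rw [h3]
      ring
    have e : (dif fun i => rowT T (S i)) l j.succ =
        rowT T (S l.succ) j.succ - rowT T (S 0) j.succ := rfl
    rw [h4, e]
    refine lt_of_le_of_lt ?_ (hδle S)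
    have e2 : lw (Γ.fn (gz lam c a S l.succ : GRing lam c a)) j θ -
        lw (Γ.fn (gz lam c a S 0 : GRing lam c a)) j θ - 2 * Real.pi * Complex.I *
          ((rowT T (S l.succ) j.succ - rowT T (S 0) j.succ : ℝ) : ℂ) =
        (lw (Γ.fn (gz lam c a S l.succ : GRing lam c a)) j θ -
          2 * Real.pi * Complex.I * rowT T (S l.succ) j.succ) -
        (lw (Γ.fn (gz lam c a S 0 : GRing lam c a)) j θ -
          2 * Real.pi * Complex.I * rowT T (S 0) j.succ) := by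
      push_cast
      ring
    rw [e2]
    refine (norm_sub_le _ _).trans ?_
    linarith

/-- The tori at all vertices, each of them with the property `P` for suitable radii. -/
theorem exists_tori_fam (σ : K →+* ℂ)
    (hdet : ∀ T : Fin (d + 1) → Fin (m + 1), Function.Injective T → (cm c T).det ≠ 0)
    (hgen : ∀ S : Fin (d + 2) → Fin (m + 1), Function.Injective S → ∀ x : Fin (d + 1) → K,
      ∃ i, ∑ j, c (S i) j * x j ≠ a (S i)) :
    ∃ C : ℝ, 1 ≤ C ∧ ∀ lam : K, C ≤ ‖σ lam‖ →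
      ∀ P : {s : Finset (Fin m) // s.card = d + 1} → Torus (GRing lam c a) d → Prop,
      (∀ t, ∀ ρ1 : ℝ, 0 < ρ1 → ∃ ρ : ℝ, ρ1 / 2 < ρ ∧ ρ < ρ1 ∧ ∀ Γ : Torus (GRing lam c a) d,
        (∀ θ x, Γ.e θ (gcst lam c a x) = σ x) →
        (∀ (k : Fin d) θ, Γ.e θ (gu lam c a (vert t k.succ) : GRing lam c a) = circ ρ (θ k)) →
        P t Γ) →
      ∃ Γ : {s : Finset (Fin m) // s.card = d + 1} → Torus (GRing lam c a) d,
        (∀ t θ x, (Γ t).e θ (gcst lam c a x) = σ x) ∧ (∀ t, P t (Γ t)) ∧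
        (Matrix.of fun t i : {s : Finset (Fin m) // s.card = d + 1} =>
          (Γ t).reg (symb (gent lam c a (splx i)))).det ≠ 0 := by
  classical
  set D0 : ℝ := (2 * Real.pi) ^ d * (dif (row (0 : Fin (d + 2)))).det with hD0
  have hD : D0 ≠ 0 := mul_ne_zero (by have := Real.pi_pos; positivity) (det_dif_row 0)
  have hlead : (D0 • (1 : Matrix {s : Finset (Fin m) // s.card = d + 1}
      {s : Finset (Fin m) // s.card = d + 1} ℝ)).det ≠ 0 := by
    rw [Matrix.det_smul, Matrix.det_one, mul_one]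
    exact pow_ne_zero _ hD
  obtain ⟨δ, hδ, hdet'⟩ := det_ne_zero_near _ hlead
  choose ρ1 hρ1 Λ hΛ1 hΛ using fun t : {s : Finset (Fin m) // s.card = d + 1} =>
    exists_torus_fam (a := a) σ hdet hgen (vert_injective t) (ε := δ / 2) (by linarith)
  set C : ℝ := ∑ t, |Λ t| + 2 with hC
  have hsum : 0 ≤ ∑ t, |Λ t| := Finset.sum_nonneg fun J _ => abs_nonneg _
  have hΛC : ∀ t, Λ t ≤ C := by
    intro t
    have h1 := Finset.single_le_sum (f := fun t => |Λ t|) (fun t _ => abs_nonneg _)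
      (Finset.mem_univ t)
    have h2 := le_abs_self (Λ t)
    have h3 : |Λ t| ≤ ∑ t, |Λ t| := h1
    linarith
  refine ⟨C, by linarith, fun lam hlam P hP => ?_⟩
  choose ρ hρa hρb hρP using fun t => hP t (ρ1 t) (hρ1 t)
  choose Γ hΓ1 hΓr hΓ2 using fun t => hΛ t lam ((hΛC t).trans hlam) (ρ t) (hρa t) (hρb t)
  refine ⟨Γ, hΓ1, fun t => hρP t (Γ t) (hΓ1 t) (hΓr t), ?_⟩
  have hs : -Real.log ‖σ lam‖ ≠ 0 := by
    have : 0 < Real.log ‖σ lam‖ := Real.log_pos (by linarith)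
    linarith
  set s : ℝ := -Real.log ‖σ lam‖ with hsdef
  have h1 : (Matrix.of fun t i : {s : Finset (Fin m) // s.card = d + 1} =>
      (Γ t).reg (symb (gent lam c a (splx i))) / s).det ≠ 0 := by
    refine hdet' _ fun t i => ?_
    rw [Matrix.of_apply, Matrix.smul_apply, Matrix.one_apply, smul_eq_mul]
    refine lt_of_le_of_lt ?_ (show δ / 2 < δ by linarith)
    have h2 := hΓ2 t (splx i) (splx_injective i)
    by_cases hti : t = i
    · subst hti
      rw [det_same] at h2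
      rwa [if_pos rfl, mul_one]
    · rw [det_other hti, mul_zero] at h2
      rwa [if_neg hti, mul_zero]
  have h2 : (Matrix.of fun t i : {s : Finset (Fin m) // s.card = d + 1} =>
      (Γ t).reg (symb (gent lam c a (splx i)))) =
      s • (Matrix.of fun t i : {s : Finset (Fin m) // s.card = d + 1} =>
        (Γ t).reg (symb (gent lam c a (splx i))) / s) := by
    ext t i
    rw [Matrix.smul_apply, Matrix.of_apply, Matrix.of_apply, smul_eq_mul]
    field_simp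
  rw [h2, Matrix.det_smul]
  exact mul_ne_zero (pow_ne_zero _ hs) h1

end main

end Pool.Agent.X232.CF.P
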