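import Pool.Agent.X232.CF.P.Unit
import Pool.Agent.TH826.GA.Final
set_option autoImplicit false

/-!
The relations between the symbols on the plane curve `λ ∏_e (y - s_e x - r_e) = 1`.
-/

namespace Pool.Agent.X232.CF.P

open Pool.Agent.TH826.GA (GRing gpol gcst gu coe_gu gz gent ku gam vert splx)

open Pool.Agent.TH826.MK (KQ symb)

open Pool.Agent.X232.CU (sy sy_mul_left sy_mul_right sy_prod_left sy_prod_right sy_zpow_left
  sy_zpow_right sy_one_left sy_one_right sy_div_left sy_div_right sy_inv_left sy_inv_right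
  map_sy sy_self symb_eq_sy span_symb sy_steinberg)

variable {K : Type*} [Field K] {m : ℕ} (lam : K) (s r : Fin (m + 1) → K)

/-- the index set of the classes -/
abbrev TT (m : ℕ) : Type := {t : Finset (Fin m) // t.card = 1 + 1}

/-- the classes -/
noncomputable def clP (t : TT m) : KQ (PA lam s r) 2 := symb (gent lam (cS s) r (splx t))

/-- the symbols modulo the disregarded ones -/
noncomputable def EE (e f : Fin (m + 1)) : KQ (PA lam s r) 2 ⧸ MM (pc lam s r) :=
  pi2 (pc lam s r) (sy (gu lam (cS s) r e) (gu lam (cS s) r f))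

theorem EE_swap (e f : Fin (m + 1)) : EE lam s r e f = -EE lam s r f e :=
  (alt_pi2 (pc lam s r)).swap _ _

theorem EE_self (e : Fin (m + 1)) : EE lam s r e e = 0 := alt_pi2 (pc lam s r) _

theorem EE_gz (S : Fin (1 + 2) → Fin (m + 1)) (i j : Fin (1 + 2)) :
    pi2 (pc lam s r) (sy (gz lam (cS s) r S i) (gz lam (cS s) r S j)) =
      EE lam s r (S i) (S j) := by
  have h : ∀ i, gz lam (cS s) r S i = cu (pc lam s r) (ku (gam (cS s) S i)) *
      gu lam (cS s) r (S i) := fun i => rfl
  rw [h, h, sy_mul_left, sy_mul_right, sy_mul_right, map_add, map_add, map_add, pi2_left, pi2_left,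
    pi2_right, zero_add, zero_add, zero_add]
  rfl

theorem pi2_cl (t : TT m) : pi2 (pc lam s r) (clP lam s r t) =
    EE lam s r (vert t 0) (vert t 1) + EE lam s r (vert t 1) 0 + EE lam s r 0 (vert t 0) := by
  have h : clP lam s r t = sy (gz lam (cS s) r (splx t) 1 / gz lam (cS s) r (splx t) 0)
      (gz lam (cS s) r (splx t) 2 / gz lam (cS s) r (splx t) 0) := by
    unfold clP
    exact symb_eq_sy _
  rw [h, sy_div_left, sy_div_right, sy_div_right, map_sub, map_sub, map_sub, EE_gz, EE_gz, EE_gz,
    EE_gz]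
  have e0 : splx t 0 = 0 := rfl
  have e1 : splx t 1 = vert t 0 := rfl
  have e2 : splx t 2 = vert t 1 := rfl
  rw [e0, e1, e2, EE_self, EE_swap lam s r (vert t 1) 0, EE_swap lam s r 0 (vert t 0)]
  abel

theorem vert_pair {i j : Fin m} (h : i < j) : ∃ t : TT m, vert t 0 = i.succ ∧
    vert t 1 = j.succ := by
  classical
  have hc : ({i, j} : Finset (Fin m)).card = 1 + 1 := Finset.card_pair h.ne
  refine ⟨⟨{i, j}, hc⟩, ?_⟩
  have h1 : (![i, j] : Fin (1 + 1) → Fin m) = ({i, j} : Finset (Fin m)).orderEmbOfFin hc := by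
    refine Finset.orderEmbOfFin_unique hc (fun k => ?_) ?_
    · fin_cases k
      · exact Finset.mem_insert_self _ _
      · exact Finset.mem_insert_of_mem (Finset.mem_singleton_self _)
    · intro a b hab
      fin_cases a <;> fin_cases b
      · exact absurd hab (lt_irrefl _)
      · exact h
      · exact absurd hab (by decide)
      · exact absurd hab (lt_irrefl _)
  constructor
  · show (({i, j} : Finset (Fin m)).orderEmbOfFin hc 0).succ = _
    rw [← h1]
    rfl
  · show (({i, j} : Finset (Fin m)).orderEmbOfFin hc 1).succ = _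
    rw [← h1]
    rfl

/-- the space spanned by the classes -/
noncomputable def WW : Submodule ℚ (KQ (PA lam s r) 2 ⧸ MM (pc lam s r)) :=
  (Submodule.span ℚ (Set.range (clP lam s r))).map (pi2 (pc lam s r))

theorem CL_mem (i j : Fin m) : EE lam s r i.succ j.succ + EE lam s r j.succ 0 +
    EE lam s r 0 i.succ ∈ WW lam s r := by
  have key : ∀ i j : Fin m, i < j → EE lam s r i.succ j.succ + EE lam s r j.succ 0 +
      EE lam s r 0 i.succ ∈ WW lam s r := by
    intro i j h
    obtain ⟨t, h0, h1⟩ := vert_pair h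
    rw [← h0, ← h1, ← pi2_cl]
    exact Submodule.mem_map_of_mem (Submodule.subset_span ⟨t, rfl⟩)
  rcases lt_trichotomy i j with h | h | h
  · exact key i j h
  · subst h
    rw [EE_self, zero_add, EE_swap, neg_add_cancel]
    exact Submodule.zero_mem _
  · have h1 := (WW lam s r).neg_mem (key j i h)
    rw [EE_swap lam s r i.succ j.succ, EE_swap lam s r j.succ 0, EE_swap lam s r 0 i.succ]
    rw [neg_add, neg_add] at h1
    have e : -EE lam s r j.succ i.succ + -EE lam s r 0 j.succ + -EE lam s r i.succ 0 =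
        -EE lam s r j.succ i.succ + -EE lam s r i.succ 0 + -EE lam s r 0 j.succ := by abel
    rw [e]
    exact h1

variable {lam}

theorem sum_EE (hlam : lam ≠ 0) (f : Fin (m + 1)) : ∑ e, EE lam s r f e = 0 := by
  have h1 := prod_gu_unit lam hlam s r
  have h2 := congrArg (fun z => pi2 (pc lam s r) (sy (gu lam (cS s) r f) z)) h1
  simp only [sy_mul_right, sy_prod_right, map_add, map_sum, pi2_right, zero_add, sy_one_right,
    map_zero] at h2
  exact h2

theorem F_mem (hlam : lam ≠ 0) (i : Fin m) : EE lam s r 0 i.succ ∈ WW lam s r := by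
  have h1 : ∑ j : Fin m, (EE lam s r i.succ j.succ + EE lam s r j.succ 0 +
      EE lam s r 0 i.succ) ∈ WW lam s r := Submodule.sum_mem _ fun j _ => CL_mem lam s r i j
  rw [Finset.sum_add_distrib, Finset.sum_add_distrib, Finset.sum_const, Finset.card_univ,
    Fintype.card_fin] at h1
  have h2 : ∑ j : Fin m, EE lam s r i.succ j.succ = EE lam s r 0 i.succ := by
    have h := sum_EE s r hlam i.succ
    rw [Fin.sum_univ_succ, EE_swap lam s r i.succ 0] at h
    exact (neg_add_eq_zero.1 h).symm
  have h3 : ∑ j : Fin m, EE lam s r j.succ 0 = 0 := by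
    have h := sum_EE s r hlam 0
    rw [Fin.sum_univ_succ, EE_self, zero_add] at h
    have e : ∑ j : Fin m, EE lam s r j.succ 0 = -∑ j : Fin m, EE lam s r 0 j.succ := by
      rw [← Finset.sum_neg_distrib]
      exact Finset.sum_congr rfl fun j _ => EE_swap lam s r _ _
    rw [e, h, neg_zero]
  rw [h2, h3, add_zero] at h1
  have h4 : ((m : ℚ) + 1) • EE lam s r 0 i.succ ∈ WW lam s r := by
    rw [add_smul, one_smul, add_comm]
    have e : ((m : ℚ)) • EE lam s r 0 i.succ = m • EE lam s r 0 i.succ :=
      Nat.cast_smul_eq_nsmul ℚ m _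
    rw [e]
    exact h1
  have h5 := (WW lam s r).smul_mem ((m : ℚ) + 1)⁻¹ h4
  have h6 : ((m : ℚ) + 1) ≠ 0 := by positivity
  rwa [smul_smul, inv_mul_cancel₀ h6, one_smul] at h5

theorem red_P (hlam : lam ≠ 0) (i j : Fin m) :
    sy (gensP lam s r i) (gensP lam s r j) ∈ Submodule.span ℚ (Set.range (clP lam s r)) ⊔
      (C1 (pc lam s r) (LinearMap.id : KQ (PA lam s r) 2 →ₗ[ℚ] _) ⊔ AA (PA lam s r)) := by
  have h1 : EE lam s r i.succ j.succ ∈ WW lam s r := by
    have h2 := CL_mem lam s r i j
    have h3 := F_mem s r hlam i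
    have h4 := F_mem s r hlam j
    have h5 := (WW lam s r).add_mem ((WW lam s r).sub_mem h2 h3) h4
    have e : EE lam s r i.succ j.succ + EE lam s r j.succ 0 + EE lam s r 0 i.succ -
        EE lam s r 0 i.succ + EE lam s r 0 j.succ = EE lam s r i.succ j.succ := by
      rw [EE_swap lam s r j.succ 0]
      abel
    rwa [e] at h5
  obtain ⟨z', hz, h2⟩ := h1
  exact mem_of_pi2 (pc lam s r) hz h2.symm

end Pool.Agent.X232.CF.P
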