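import Pool.Agent.TH826.GA.Final
import Pool.Agent.Y797.IV.Sim
import Pool.Agent.Y797.IV.Def
set_option autoImplicit false

/-!
The hypersurfaces `μ D ^ (m + 1) ∏_e L_e = 1` of arrangements in general position whose vertices
become integral after multiplication by `D`: the symbols of the simplices are unramified.
-/

namespace Pool.Agent.X232.CF.P

open scoped WithZero

open Pool.Agent.TH826.MK

open Pool.Agent.TH826.GA (cm vtx gam ku coe_ku GRing gpol gcst gu coe_gu lf gz gent cL xL lL map_gu
  prod_lL injective_face const_ne)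

open Pool.Agent.TH826.SX (mem_unitPart_of_sum_lt)

open Pool.Agent.Y797.IV (Clears GenPos fx simplex_x_le simplex_val sum_gx)

variable {K : Type*} [Field K] {d m : ℕ} {lam : K} {c : Fin (m + 1) → Fin (d + 1) → K}
  {a : Fin (m + 1) → K} {L : Type*} [Field L] (f : GRing lam c a →+* L)

theorem gam_ne (hG : GenPos c a) {S : Fin (d + 2) → Fin (m + 1)} (hS : Function.Injective S)
    (i : Fin (d + 2)) : gam c S i ≠ 0 := by
  unfold gam
  exact mul_ne_zero (pow_ne_zero _ (by norm_num)) (hG.1 _ (injective_face hS i))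

theorem lL_fx (e : Fin (m + 1)) : lL f e = fx (cL f) (xL f) c a e := rfl

theorem map_gz' (hG : GenPos c a) {S : Fin (d + 2) → Fin (m + 1)} (hS : Function.Injective S)
    (i : Fin (d + 2)) : f (gz lam c a S i : GRing lam c a) =
      cL f (gam c S i) * fx (cL f) (xL f) c a (S i) := by
  unfold gz
  rw [Units.val_mul, map_mul, map_gu, lL_fx]
  congr 1
  rw [Units.coe_map]
  show f (gcst lam c a (ku (gam c S i) : K)) = _
  rw [coe_ku (gam_ne hG hS i)]
  rfl

/-- The symbols are unramified at all discrete valuations. -/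
theorem symb_mem_unitPart' (hG : GenPos c a) (hc : ∀ e j, IsIntegral ℤ (c e j))
    (ha : ∀ e, IsIntegral ℤ (a e)) {D mu : K} (hD : Clears c a D) (hmu : IsIntegral ℤ mu)
    (hlam : lam = mu * D ^ (m + 1))
    (v : Valuation L ℤᵐ⁰) {S : Fin (d + 2) → Fin (m + 1)} (hS : Function.Injective S) :
    symb (fun l => Units.map (f : GRing lam c a →* L) (gent lam c a S l)) ∈
      unitPart v (d + 1) := by
  classical
  obtain ⟨hD0, hDi, hDv⟩ := hD
  have hci : ∀ x : K, IsIntegral ℤ x → v (cL f x) ≤ 1 := fun x hx =>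
    val_le_one_of_integral v (map_isIntegral_int _ hx)
  set z : Fin (d + 2) → Lˣ := fun k => Units.map (f : GRing lam c a →* L) (gz lam c a S k)
    with hz
  have hzv : ∀ k, (z k : L) = cL f (gam c S k) * fx (cL f) (xL f) c a (S k) :=
    fun k => map_gz' f hG hS k
  have hent : (fun l => Units.map (f : GRing lam c a →* L) (gent lam c a S l)) =
      fun l : Fin (d + 1) => z l.succ / z 0 := by
    funext l
    exact map_div (Units.map (f : GRing lam c a →* L)) _ _
  rw [hent]
  have hsum : ∑ k, (z k : L) = - cL f (∑ i, gam c S i * a (S i)) := by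
    simp only [hzv]
    exact sum_gx (cL f) (xL f) S
  by_cases hB : ∃ k, v (cL f (∑ i, gam c S i * a (S i))) < v (z k : L)
  · obtain ⟨k, hk⟩ := hB
    obtain ⟨l, -, hl⟩ := Finset.exists_max_image Finset.univ (fun k => v (z k : L))
      ⟨k, Finset.mem_univ k⟩
    refine mem_unitPart_of_sum_lt v z l (fun k => hl k (Finset.mem_univ k)) ?_
    rw [hsum, Valuation.map_neg]
    exact hk.trans_le (hl k (Finset.mem_univ k))
  · push Not at hB
    have hB' : ∀ k, v (cL f (gam c S k) * fx (cL f) (xL f) c a (S k)) ≤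
        v (cL f (∑ i, gam c S i * a (S i))) := fun k => by
      rw [← hzv]
      exact hB k
    have hDL : v (cL f D) ≠ 0 := by
      rw [Valuation.ne_zero_iff]
      exact (map_ne_zero _).2 hD0
    have hDle : v (cL f D) ≤ 1 := hci _ hDi
    set B : ℤᵐ⁰ := (v (cL f D))⁻¹ with hBdef
    have hB0 : B ≠ 0 := inv_ne_zero hDL
    have hB1 : 1 ≤ B := (one_le_inv₀ (zero_lt_iff.2 hDL)).2 hDle
    have hDB : v (cL f D) * B = 1 := mul_inv_cancel₀ hDL
    have hvt : ∀ T' : Fin (d + 1) → Fin (m + 1), (cm c T').det ≠ 0 → ∀ j,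
        v (cL f (vtx c a T' j)) ≤ B := by
      intro T' hT' j
      have h1 := hci _ (hDv T' hT' j)
      rw [map_mul, map_mul, mul_comm] at h1
      exact (le_mul_inv_iff₀ (zero_lt_iff.2 hDL)).2 (by simpa using h1) |>.trans_eq (one_mul _)
    have hft : ∀ T' : Fin (d + 1) → Fin (m + 1), (cm c T').det ≠ 0 → ∀ e,
        v (cL f (∑ j, c e j * vtx c a T' j - a e)) ≤ B := by
      intro T' hT' e
      rw [map_sub, map_sum]
      refine (v.map_sub _ _).trans (max_le ?_ ((hci _ (ha e)).trans hB1))
      refine Valuation.map_sum_le v fun j _ => ?_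
      rw [map_mul, map_mul]
      exact (mul_le_mul' (hci _ (hc e j)) (hvt T' hT' j)).trans_eq (one_mul _)
    have hx : ∀ j, v (xL f j) ≤ B := fun j => simplex_x_le v hG.1 hG.2 hS hB' hvt j
    have hle : ∀ e, v (lL f e) ≤ B := by
      intro e
      refine (v.map_sub _ _).trans (max_le ?_ ((hci _ (ha e)).trans hB1))
      refine Valuation.map_sum_le v fun j _ => ?_
      rw [map_mul]
      exact (mul_le_mul' (hci _ (hc e j)) (hx j)).trans_eq (one_mul _)
    have hle1 : ∀ e, v (cL f D) * v (lL f e) ≤ 1 := fun e =>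
      (mul_le_mul' le_rfl (hle e)).trans_eq hDB
    have hprod : v (cL f mu) * ∏ e, (v (cL f D) * v (lL f e)) = 1 := by
      have h1 := congrArg v (prod_lL f)
      rw [map_one] at h1
      rw [← h1]
      have hl2 : cL f lam = cL f mu * cL f D ^ (m + 1) := by
        rw [← map_pow, ← map_mul]
        exact congrArg (cL f) hlam
      rw [hl2, map_mul, map_mul, map_pow, map_prod, Finset.prod_mul_distrib, Finset.prod_const,
        Finset.card_univ, Fintype.card_fin, mul_assoc]
    have hone : ∀ e, v (cL f D) * v (lL f e) = 1 := by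
      intro e
      refine le_antisymm (hle1 e) ?_
      rw [← hprod, ← Finset.mul_prod_erase _ _ (Finset.mem_univ e)]
      calc v (cL f mu) * ((v (cL f D) * v (lL f e)) *
            ∏ x ∈ Finset.univ.erase e, (v (cL f D) * v (lL f x)))
          ≤ 1 * ((v (cL f D) * v (lL f e)) * 1) :=
            mul_le_mul' (hci _ hmu) (mul_le_mul' le_rfl
              (Finset.prod_le_one' fun j _ => hle1 j))
        _ = v (cL f D) * v (lL f e) := by rw [one_mul, mul_one]
    have hall : ∀ e, v (fx (cL f) (xL f) c a e) = B := by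
      intro e
      have h1 : v (cL f D) * v (fx (cL f) (xL f) c a e) = 1 := hone e
      rw [hBdef]
      exact eq_inv_of_mul_eq_one_right h1
    refine Submodule.subset_span ⟨_, fun l => ?_, rfl⟩
    have h0 : v (cL f (∑ i, gam c S i * a (S i))) ≠ 0 := by
      rw [Valuation.ne_zero_iff]
      exact (map_ne_zero _).2 (const_ne hG.1 hG.2 hS)
    rw [Units.val_div_eq_div_val, map_div₀, hzv, hzv,
      simplex_val v hG.1 hS hB' hft hall, simplex_val v hG.1 hS hB' hft hall, div_self h0]

theorem symb_mem_unramified' (hG : GenPos c a) (hc : ∀ e j, IsIntegral ℤ (c e j))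
    (ha : ∀ e, IsIntegral ℤ (a e)) {D mu : K} (hD : Clears c a D) (hmu : IsIntegral ℤ mu)
    (hlam : lam = mu * D ^ (m + 1)) {S : Fin (d + 2) → Fin (m + 1)}
    (hS : Function.Injective S) :
    KQ.map (d + 1) f (symb (gent lam c a S)) ∈ Unramified L (d + 1) := by
  rw [KQ.map_symb]
  unfold Unramified
  simp only [Submodule.mem_iInf]
  intro v _
  exact symb_mem_unitPart' f hG hc ha hD hmu hlam v hS

end Pool.Agent.X232.CF.P
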