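import Pool.Agent.X232.CF.P.Fam
import Pool.Agent.X232.CF.P.Red
import Pool.Agent.X232.CF.P.Unr
import Pool.Agent.X232.CF.E.Loop
set_option autoImplicit false

/-!
Loops on the plane curves `λ ∏_e (y - s_e x - r_e) = 1` which avoid the zeros of a given function,
and the data of the curve.
-/

namespace Pool.Agent.X232.CF.P

open Polynomial

open Pool.Agent.TH826.GA (GRing gpol gcst gu coe_gu gent vert splx)

open Pool.Agent.TH826.MK (KQ symb Torus circ Unramified)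

open Pool.Agent.X232.CU (Av)

open Pool.Agent.X232.CF.E (finite_norms)

open Pool.Agent.Y797.IV (Clears GenPos)

variable {K : Type*} [Field K] {m : ℕ} {lam : K} {s r : Fin (m + 1) → K}

theorem evL_torus {σ : K →+* ℂ} {Γ : Torus (PA lam s r) 1} {g : Fin (m + 1)} {ρ : ℝ}
    (h1 : ∀ θ x, Γ.e θ (gcst lam (cS s) r x) = σ x)
    (h2 : ∀ θ, Γ.e θ (gu lam (cS s) r g : PA lam s r) = circ ρ (θ 0)) (c : K[X])
    (θ : Fin 1 → ℝ) : Γ.e θ (evL lam s r g c) = c.eval₂ σ (circ ρ (θ 0)) := by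
  unfold evL
  rw [coe_eval₂RingHom, hom_eval₂, h2]
  congr 1
  exact RingHom.ext fun y => h1 θ y

/-- the loops -/
theorem exists_loops (σ : K →+* ℂ) (hs : Function.Injective s) (hG : GenPos (cS s) r)
    (hm : 1 ≤ m) : ∃ C : ℝ, 1 ≤ C ∧ ∀ lam : K, C ≤ ‖σ lam‖ → ∀ f : PA lam s r, f ≠ 0 →
      ∃ Γ : TT m → Torus (PA lam s r) 1,
        (∀ t θ x, (Γ t).e θ (gcst lam (cS s) r x) = σ x) ∧ (∀ t, Av (Γ t) f) ∧
        (Matrix.of fun t i : TT m => (Γ t).reg (clP lam s r i)).det ≠ 0 := by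
  obtain ⟨C, hC, h⟩ := exists_tori_fam (d := 1) σ hG.1 hG.2
  refine ⟨C, hC, fun lam hlam f hf => ?_⟩
  have hl0 : lam ≠ 0 := by
    intro h0
    rw [h0, map_zero, norm_zero] at hlam
    linarith
  have hdom : IsDomain (PA lam s r) := isDomain_PA hs hm hl0
  refine h lam hlam (fun _ Γ => Av Γ f) fun t ρ1 hρ1 => ?_
  obtain ⟨c, hc, hfc⟩ := exists_dvd_L (lam := lam) (s := s) (r := r) (vert t (Fin.succ 0)) hf
  obtain ⟨B, hB, hBR⟩ := finite_norms σ hc
  obtain ⟨ρ, hρ, hρB⟩ := (Set.Ioo_infinite (show ρ1 / 2 < ρ1 by linarith)).exists_notMem_finite hB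
  refine ⟨ρ, hρ.1, hρ.2, fun Γ h1 h2 θ h0 => ?_⟩
  have hρ0 : 0 ≤ ρ := by
    have := hρ.1
    linarith
  obtain ⟨k, hk⟩ := hfc
  have h3 := evL_torus h1 (fun θ => h2 0 θ) c θ
  rw [hk, map_mul, h0, zero_mul] at h3
  exact hBR ρ hρ0 hρB (θ 0) h3.symm

/-- the data of the curve -/
noncomputable def dataP [CharZero K] (hlam : lam ≠ 0) (hs : Function.Injective s) (hm : 1 ≤ m)
    (hG : GenPos (cS s) r) (is : ∀ e, IsIntegral ℤ (s e)) (ir : ∀ e, IsIntegral ℤ (r e)) {D mu : K}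
    (hD : Clears (cS s) r D) (hmu : IsIntegral ℤ mu) (hl : lam = mu * D ^ (m + 1))
    (L : Type*) [Field L] [Algebra (PA lam s r) L] :
    Data (pc lam s r) L (Fin (m + 1)) (Fin m) (TT m) where
  pl e := pl r e hlam hs
  pl_cst e c := pl_pc r e hlam hs c
  inj e := pl_inj r e hlam hs hm
  unif e := unif_P r e hlam hs
  gens := gensP lam s r
  units := units_P r hlam hs hm
  rank := rank_P r hlam hs
  cl := clP lam s r
  unr t := symb_mem_unramified' (d := 1) (algebraMap (PA lam s r) L) hG (fun e j => by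
    fin_cases j
    · exact (is e).neg
    · exact isIntegral_one) ir hD hmu hl (Pool.Agent.TH826.GA.splx_injective t)
  red := red_P s r hlam

/-- the loops over the embedding `σ` -/
def OverP (σ : K →+* ℂ) (Γ : Torus (PA lam s r) 1) : Prop :=
  ∀ θ (y : K), Γ.e θ (pc lam s r y) = σ y

theorem iso_P [CharZero K] (σ : K →+* ℂ) (hs : Function.Injective s) (hG : GenPos (cS s) r)
    (hm : 1 ≤ m) (is : ∀ e, IsIntegral ℤ (s e)) (ir : ∀ e, IsIntegral ℤ (r e)) :
    ∃ C : ℝ, 1 ≤ C ∧ ∀ lam D mu : K, Clears (cS s) r D → IsIntegral ℤ mu →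
      lam = mu * D ^ (m + 1) → C ≤ ‖σ lam‖ → IsDomain (PA lam s r) ∧
      ∀ (L : Type*) [Field L] [Algebra (PA lam s r) L] [IsFractionRing (PA lam s r) L],
        IsoModConstants (pc lam s r) L (fun (_ : TT m) (Γ : Torus (PA lam s r) 1) => OverP σ Γ) := by
  classical
  obtain ⟨C, hC, h⟩ := exists_loops (r := r) σ hs hG hm
  refine ⟨C, hC, fun lam D mu hD hmu hl hlam => ?_⟩
  have hl0 : lam ≠ 0 := by
    intro h0
    rw [h0, map_zero, norm_zero] at hlam
    linarith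
  have hdom : IsDomain (PA lam s r) := isDomain_PA hs hm hl0
  refine ⟨hdom, fun L _ _ _ => ?_⟩
  refine iso_mod_constants (fun (_ : TT m) (Γ : Torus (PA lam s r) 1) => OverP σ Γ)
    (fun _ Γ hΓ c => ⟨σ c, fun θ => hΓ θ c⟩) (dataP hl0 hs hm hG is ir hD hmu hl L) fun f hf => ?_
  exact h lam hlam f hf

end Pool.Agent.X232.CF.P
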