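import Pool.Agent.X232.CF.P.Ring
import Pool.Agent.X232.CF.E.Unit
set_option autoImplicit false

/-!
The places at infinity of the plane curve `λ ∏_e (y - s_e x - r_e) = 1`.
-/

namespace Pool.Agent.X232.CF.P

open Polynomial

open Pool.Agent.TH826.GA (GRing gpol gcst gu coe_gu lf geqn gpol_geqn prod_gl cm isDomain_GRing)

open Pool.Agent.X232.CU (od_coe ti ti_ne_zero order_ti)

open Pool.Agent.X232.CF.E (PS PS_C ti_X order_X PS_ne eval_ti_ne oM ord_mul ord_zpow ord_pow
  ord_inv ord_prod)

variable {K : Type*} [Field K] {m : ℕ} (lam : K) (s r : Fin (m + 1) → K) (e : Fin (m + 1))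

/-- the leading coefficient -/
noncomputable def kap : K := lam * ∏ g ∈ Finset.univ.erase e, (s e - s g)

/-- the factors -/
noncomputable def Ag (g : Fin (m + 1)) : PowerSeries K :=
  PowerSeries.C (s e - s g) + PowerSeries.C (r e - r g) * PowerSeries.X

/-- the polynomial -/
noncomputable def hp : (PowerSeries K)[X] :=
  X ^ (m + 1) - C (PowerSeries.C lam) *
    ∏ g ∈ Finset.univ.erase e, (C (Ag s r e g) * X + C (PowerSeries.X ^ (m + 1)))

theorem cc_Ag (g : Fin (m + 1)) : PowerSeries.constantCoeff (Ag s r e g) = s e - s g := by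
  unfold Ag
  simp

theorem card_er : (Finset.univ.erase e).card = m := by
  rw [Finset.card_erase_of_mem (Finset.mem_univ e), Finset.card_univ, Fintype.card_fin]
  rfl

theorem monic_hp : (hp lam s r e).Monic := by
  unfold hp
  have h1 : (C (PowerSeries.C lam) * ∏ g ∈ Finset.univ.erase e,
      (C (Ag s r e g) * X + C (PowerSeries.X ^ (m + 1))) : (PowerSeries K)[X]).natDegree ≤ m := by
    refine (natDegree_C_mul_le _ _).trans ?_
    refine (natDegree_prod_le _ _).trans ?_
    refine (Finset.sum_le_sum (g := fun _ => 1) fun g _ => ?_).trans ?_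
    · exact natDegree_linear_le
    · rw [Finset.sum_const, card_er, smul_eq_mul, mul_one]
  have h2 := natDegree_le_iff_degree_le.1 h1
  refine monic_X_pow_sub (lt_of_le_of_lt h2 ?_)
  exact_mod_cast Nat.lt_succ_self m

theorem hp_map : (hp lam s r e).map PowerSeries.constantCoeff =
    X ^ m * (X - C (kap lam s e)) := by
  unfold hp kap
  rw [Polynomial.map_sub, Polynomial.map_pow, map_X, Polynomial.map_mul, map_C, Polynomial.map_prod]
  have h : ∏ g ∈ Finset.univ.erase e, ((C (Ag s r e g) * X + C (PowerSeries.X ^ (m + 1)) :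
      (PowerSeries K)[X])).map PowerSeries.constantCoeff =
      C (∏ g ∈ Finset.univ.erase e, (s e - s g)) * X ^ m := by
    have h1 : ∀ g ∈ Finset.univ.erase e, ((C (Ag s r e g) * X + C (PowerSeries.X ^ (m + 1)) :
        (PowerSeries K)[X])).map PowerSeries.constantCoeff = C (s e - s g) * X := by
      intro g _
      rw [Polynomial.map_add, Polynomial.map_mul, map_C, map_X, map_C, cc_Ag, map_pow,
        PowerSeries.constantCoeff_X, zero_pow (Nat.succ_ne_zero m), map_zero, add_zero]
    rw [Finset.prod_congr rfl h1, Finset.prod_mul_distrib, Finset.prod_const, card_er, map_prod]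
  rw [h, PowerSeries.constantCoeff_C, map_mul]
  ring

theorem exists_xi (h0 : kap lam s e ≠ 0) : ∃ ξ : PowerSeries K,
    ξ ^ (m + 1) = PowerSeries.C lam * ∏ g ∈ Finset.univ.erase e,
      (Ag s r e g * ξ + PowerSeries.X ^ (m + 1)) ∧
    PowerSeries.constantCoeff ξ = kap lam s e := by
  have hH : HenselianRing (PowerSeries K) (Ideal.span {(PowerSeries.X : PowerSeries K)}) :=
    inferInstance
  have hev : ∀ p : (PowerSeries K)[X], PowerSeries.constantCoeff
      (p.eval (PowerSeries.C (kap lam s e))) =
      (p.map PowerSeries.constantCoeff).eval (kap lam s e) := by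
    intro p
    have h1 := eval_map_apply (p := p) (PowerSeries.constantCoeff (R := K))
      (PowerSeries.C (kap lam s e))
    rw [PowerSeries.constantCoeff_C] at h1
    exact h1.symm
  obtain ⟨ξ, h1, h2⟩ := hH.is_henselian (hp lam s r e) (monic_hp lam s r e)
    (PowerSeries.C (kap lam s e)) (by
      rw [Ideal.mem_span_singleton, PowerSeries.X_dvd_iff, hev, hp_map]
      simp) (by
      refine IsUnit.map _ ?_
      rw [PowerSeries.isUnit_iff_constantCoeff, isUnit_iff_ne_zero, hev, ← derivative_map, hp_map]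
      simp only [derivative_mul, derivative_sub, derivative_X, derivative_C, sub_zero, mul_one,
        eval_add, eval_mul, eval_sub, eval_X, eval_C, sub_self, mul_zero, zero_add, eval_pow]
      exact pow_ne_zero _ h0)
  refine ⟨ξ, ?_, ?_⟩
  · have h3 : (hp lam s r e).eval ξ = 0 := h1
    unfold hp at h3
    rw [eval_sub, eval_pow, eval_X, eval_mul, eval_C, eval_prod, sub_eq_zero] at h3
    rw [h3]
    congr 1
    refine Finset.prod_congr rfl fun g _ => ?_
    rw [eval_add, eval_mul, eval_C, eval_X, eval_C]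
  · rw [Ideal.mem_span_singleton, PowerSeries.X_dvd_iff, map_sub, PowerSeries.constantCoeff_C,
      sub_eq_zero] at h2
    exact h2

variable {lam s}

theorem kap_ne (hlam : lam ≠ 0) (hs : Function.Injective s) : kap lam s e ≠ 0 := by
  refine mul_ne_zero hlam (Finset.prod_ne_zero_iff.2 fun g hg => ?_)
  rw [sub_ne_zero]
  exact fun h => (Finset.mem_erase.1 hg).1 (hs h).symm

variable (hlam : lam ≠ 0) (hs : Function.Injective s)

/-- the power series `ξ` -/
noncomputable def xi : PowerSeries K := (exists_xi lam s r e (kap_ne e hlam hs)).choose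

theorem xi_eq : xi r e hlam hs ^ (m + 1) = PowerSeries.C lam * ∏ g ∈ Finset.univ.erase e,
      (Ag s r e g * xi r e hlam hs + PowerSeries.X ^ (m + 1)) :=
  (exists_xi lam s r e (kap_ne e hlam hs)).choose_spec.1

theorem xi_cc : PowerSeries.constantCoeff (xi r e hlam hs) = kap lam s e :=
  (exists_xi lam s r e (kap_ne e hlam hs)).choose_spec.2

theorem xi_cc_ne : PowerSeries.constantCoeff (xi r e hlam hs) ≠ 0 := by
  rw [xi_cc]
  exact kap_ne e hlam hs

/-- the inverse -/
noncomputable def xv : PowerSeries K := (xi r e hlam hs)⁻¹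

theorem xi_xv : xi r e hlam hs * xv r e hlam hs = 1 :=
  PowerSeries.mul_inv_cancel _ (xi_cc_ne r e hlam hs)

theorem xv_cc_ne : PowerSeries.constantCoeff (xv r e hlam hs) ≠ 0 := by
  intro h
  have h1 := congrArg PowerSeries.constantCoeff (xi_xv r e hlam hs)
  rw [map_mul, h, mul_zero, map_one] at h1
  exact zero_ne_one h1

/-- `y / x` -/
noncomputable def eta : PowerSeries K := PowerSeries.C (s e) + PowerSeries.C (r e) * PowerSeries.X +
  PowerSeries.X ^ (m + 1) * xv r e hlam hs

theorem eta_cc : PowerSeries.constantCoeff (eta r e hlam hs) = s e := by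
  unfold eta
  rw [map_add, map_add, map_mul, map_mul, map_pow, PowerSeries.constantCoeff_C,
    PowerSeries.constantCoeff_X, zero_pow (Nat.succ_ne_zero m)]
  ring

/-- the series of `y` -/
noncomputable def yE : HahnSeries ℤ K := ti K * PS K (eta r e hlam hs)

theorem fac_self : yE r e hlam hs - HahnSeries.C (s e) * ti K - HahnSeries.C (r e) =
    PS K (PowerSeries.X ^ m * xv r e hlam hs) := by
  have h := ti_X (K := K)
  unfold yE eta
  rw [map_add, map_add, map_mul, map_mul, map_mul, map_pow, map_pow, PS_C, PS_C, pow_succ]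
  linear_combination (HahnSeries.C (r e) +
    PS K PowerSeries.X ^ m * PS K (xv r e hlam hs)) * h

/-- the quotient of `L_g` by `x` -/
noncomputable def qg (g : Fin (m + 1)) : PowerSeries K :=
  Ag s r e g + PowerSeries.X ^ (m + 1) * xv r e hlam hs

theorem qg_cc (g : Fin (m + 1)) : PowerSeries.constantCoeff (qg r e hlam hs g) = s e - s g := by
  unfold qg
  rw [map_add, cc_Ag, map_mul, map_pow, PowerSeries.constantCoeff_X,
    zero_pow (Nat.succ_ne_zero m)]
  ring

theorem fac_ne (g : Fin (m + 1)) :
    yE r e hlam hs - HahnSeries.C (s g) * ti K - HahnSeries.C (r g) =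
      ti K * PS K (qg r e hlam hs g) := by
  have h := ti_X (K := K)
  unfold yE eta qg Ag
  simp only [map_add, map_mul, map_sub, map_pow, PS_C]
  linear_combination (HahnSeries.C (r g)) * h

theorem qg_xi (g : Fin (m + 1)) : qg r e hlam hs g =
    xv r e hlam hs * (Ag s r e g * xi r e hlam hs + PowerSeries.X ^ (m + 1)) := by
  have h := xi_xv r e hlam hs
  unfold qg
  linear_combination (-Ag s r e g) * h

theorem pl_eq : HahnSeries.C lam * ∏ g, (yE r e hlam hs - HahnSeries.C (s g) * ti K -
    HahnSeries.C (r g)) = 1 := by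
  rw [← Finset.mul_prod_erase _ _ (Finset.mem_univ e), fac_self]
  simp only [fac_ne]
  rw [Finset.prod_mul_distrib, Finset.prod_const, card_er, ← map_prod]
  simp only [qg_xi]
  rw [Finset.prod_mul_distrib, Finset.prod_const, card_er, ← PS_C]
  have h1 := xi_eq r e hlam hs
  set PP : PowerSeries K := ∏ g ∈ Finset.univ.erase e,
    (Ag s r e g * xi r e hlam hs + PowerSeries.X ^ (m + 1)) with hPP
  have h2 : PS K (PowerSeries.C lam) * (PS K (PowerSeries.X ^ m * xv r e hlam hs) *
      (ti K ^ m * PS K (xv r e hlam hs ^ m * PP))) =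
      (ti K ^ m * PS K PowerSeries.X ^ m) * PS K (xv r e hlam hs ^ (m + 1) *
        (PowerSeries.C lam * PP)) := by
    simp only [map_mul, map_pow]
    ring
  rw [h2, ← h1, ← mul_pow, ← mul_pow, ti_X, one_pow, one_mul, mul_comm (xv r e hlam hs), xi_xv,
    one_pow, map_one]

/-- the place -/
noncomputable def pl : PA lam s r →+* HahnSeries ℤ K :=
  evA lam s r HahnSeries.C (ti K) (yE r e hlam hs) (pl_eq r e hlam hs)

theorem pl_X : pl r e hlam hs (gX lam s r) = ti K := evA_X _ _ _ _ _ _ _

theorem pl_Y : pl r e hlam hs (gY lam s r) = yE r e hlam hs := evA_Y _ _ _ _ _ _ _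

theorem pl_pc (c : K) : pl r e hlam hs (pc lam s r c) = HahnSeries.C c := evA_pc _ _ _ _ _ _ _ c

theorem pl_gu_self : (pl r e hlam hs (gu lam (cS s) r e : PA lam s r)).order = m := by
  unfold pl
  rw [evA_gu, fac_self, map_mul, map_pow, HahnSeries.order_mul
    (pow_ne_zero _ (by
      rw [Ne, map_eq_zero_iff _ HahnSeries.ofPowerSeries_injective]
      exact PowerSeries.X_ne_zero)) (PS_ne (xv_cc_ne r e hlam hs)), HahnSeries.order_pow, order_X,
    od_coe (xv_cc_ne r e hlam hs)]
  simp

theorem pl_gu_ne {g : Fin (m + 1)} (hg : g ≠ e) :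
    (pl r e hlam hs (gu lam (cS s) r g : PA lam s r)).order = -1 := by
  have h : PowerSeries.constantCoeff (qg r e hlam hs g) ≠ 0 := by
    rw [qg_cc, sub_ne_zero]
    exact fun h => hg (hs h).symm
  unfold pl
  rw [evA_gu, fac_ne, HahnSeries.order_mul ti_ne_zero (PS_ne h), order_ti, od_coe h]
  rfl

theorem pl_evX (p : K[X]) : pl r e hlam hs (evX lam s r p) = p.eval₂ HahnSeries.C (ti K) := by
  unfold evX
  rw [coe_eval₂RingHom, hom_eval₂, pl_X]
  congr 1
  ext1 c
  exact pl_pc r e hlam hs c

theorem pl_inj (hm : 1 ≤ m) : Function.Injective (pl r e hlam hs) := by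
  have hdom : IsDomain (PA lam s r) := isDomain_PA hs hm hlam
  rw [injective_iff_map_eq_zero]
  intro f hf
  by_contra hf0
  obtain ⟨c, hc, g, hg⟩ := exists_dvd_x hlam hf0
  have h1 := pl_evX r e hlam hs c
  rw [hg, map_mul, hf, zero_mul] at h1
  exact eval_ti_ne hc h1.symm

end Pool.Agent.X232.CF.P
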