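import Pool.Agent.TH826.GA.Dom
import Pool.Agent.X232.CF.Quo
import Pool.Agent.X232.CF.Fin
set_option autoImplicit false

/-!
The coordinate ring of the plane curve `λ ∏_e (y - s_e x - r_e) = 1`.
-/

namespace Pool.Agent.X232.CF.P

open Pool.Agent.TH826.GA (GRing gpol gcst gu coe_gu lf geqn gpol_geqn prod_gl cm isDomain_GRing)

variable {K : Type*} [Field K] {m : ℕ}

/-- the linear parts of the forms `y - s_e x - r_e` -/
def cS (s : Fin (m + 1) → K) (e : Fin (m + 1)) : Fin (1 + 1) → K := ![-s e, 1]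

theorem det_cS (s : Fin (m + 1) → K) (T : Fin (1 + 1) → Fin (m + 1)) :
    (cm (cS s) T).det = s (T 1) - s (T 0) := by
  rw [Matrix.det_fin_two]
  show (-s (T 0)) * 1 - 1 * (-s (T 1)) = _
  ring

theorem det_cS_ne {s : Fin (m + 1) → K} (hs : Function.Injective s)
    (T : Fin (1 + 1) → Fin (m + 1)) (hT : Function.Injective T) : (cm (cS s) T).det ≠ 0 := by
  rw [det_cS, sub_ne_zero]
  intro h
  exact absurd (hT (hs h)) (by decide)

variable (lam : K) (s r : Fin (m + 1) → K)

theorem lf_eq (e : Fin (m + 1)) : lf (cS s) r e =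
    MvPolynomial.X 1 - MvPolynomial.C (s e) * MvPolynomial.X 0 - MvPolynomial.C (r e) := by
  unfold lf
  rw [Fin.sum_univ_two]
  show MvPolynomial.C (-s e) * MvPolynomial.X 0 + MvPolynomial.C 1 * MvPolynomial.X 1 -
    MvPolynomial.C (r e) = _
  rw [map_neg, map_one]
  ring

/-- the coordinate ring -/
abbrev PA : Type _ := GRing lam (cS s) r

/-- the coordinate `x` -/
noncomputable def gX : PA lam s r := gpol lam (cS s) r (MvPolynomial.X 0)

/-- the coordinate `y` -/
noncomputable def gY : PA lam s r := gpol lam (cS s) r (MvPolynomial.X 1)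

/-- the constants -/
noncomputable abbrev pc : K →+* PA lam s r := gcst lam (cS s) r

theorem gu_eq (e : Fin (m + 1)) : (gu lam (cS s) r e : PA lam s r) =
    gY lam s r - pc lam s r (s e) * gX lam s r - pc lam s r (r e) := by
  rw [coe_gu, lf_eq, map_sub, map_sub, map_mul]
  rfl

theorem prod_gu : pc lam s r lam * ∏ e, (gu lam (cS s) r e : PA lam s r) = 1 :=
  prod_gl lam (cS s) r

theorem isDomain_PA {lam : K} {s r : Fin (m + 1) → K} (hs : Function.Injective s) (hm : 1 ≤ m)
    (hlam : lam ≠ 0) : IsDomain (PA lam s r) :=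
  isDomain_GRing (d := 0) (fun T hT => det_cS_ne hs T hT) hm hlam

section ev

variable {H : Type*} [CommRing H] (φ : K →+* H) (x y : H)
  (h : φ lam * ∏ e, (y - φ (s e) * x - φ (r e)) = 1)

/-- evaluation -/
noncomputable def evA : PA lam s r →+* H :=
  Ideal.Quotient.lift (Ideal.span {geqn lam (cS s) r}) (MvPolynomial.eval₂Hom φ ![x, y]) (by
    intro p hp
    have hle : Ideal.span {geqn lam (cS s) r} ≤
        RingHom.ker (MvPolynomial.eval₂Hom φ (![x, y] : Fin (1 + 1) → H)) := by
      rw [Ideal.span_le]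
      rintro q rfl
      show MvPolynomial.eval₂Hom φ (![x, y] : Fin (1 + 1) → H) (geqn lam (cS s) r) = 0
      unfold geqn
      rw [map_sub, map_mul, map_prod, map_one, sub_eq_zero, ← h]
      congr 1
      · exact MvPolynomial.eval₂Hom_C _ _ _
      · refine Finset.prod_congr rfl fun e _ => ?_
        rw [lf_eq, map_sub, map_sub, map_mul, MvPolynomial.eval₂Hom_C, MvPolynomial.eval₂Hom_C,
          MvPolynomial.eval₂Hom_X', MvPolynomial.eval₂Hom_X']
        rfl
    exact hle hp)

theorem evA_gpol (p : MvPolynomial (Fin (1 + 1)) K) :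
    evA lam s r φ x y h (gpol lam (cS s) r p) = MvPolynomial.eval₂Hom φ ![x, y] p :=
  Ideal.Quotient.lift_mk _ _ _

theorem evA_X : evA lam s r φ x y h (gX lam s r) = x := by
  unfold gX
  rw [evA_gpol, MvPolynomial.eval₂Hom_X']
  rfl

theorem evA_Y : evA lam s r φ x y h (gY lam s r) = y := by
  unfold gY
  rw [evA_gpol, MvPolynomial.eval₂Hom_X']
  rfl

theorem evA_pc (c : K) : evA lam s r φ x y h (pc lam s r c) = φ c := by
  show evA lam s r φ x y h (gpol lam (cS s) r (MvPolynomial.C c)) = _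
  rw [evA_gpol, MvPolynomial.eval₂Hom_C]

theorem evA_gu (e : Fin (m + 1)) : evA lam s r φ x y h (gu lam (cS s) r e : PA lam s r) =
    y - φ (s e) * x - φ (r e) := by
  rw [gu_eq, map_sub, map_sub, map_mul, evA_X, evA_Y, evA_pc, evA_pc]

end ev

open Polynomial

/-- polynomials in `x` and `y` -/
noncomputable def evP : K[X][X] →+* PA lam s r :=
  eval₂RingHom (eval₂RingHom (pc lam s r) (gX lam s r)) (gY lam s r)

/-- polynomials in `x` -/
noncomputable def evX : K[X] →+* PA lam s r := eval₂RingHom (pc lam s r) (gX lam s r)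

theorem evX_C (c : K) : evX lam s r (C c) = pc lam s r c := eval₂_C _ _

theorem evX_X : evX lam s r X = gX lam s r := eval₂_X _ _

theorem evP_C (p : K[X]) : evP lam s r (C p) = evX lam s r p := eval₂_C _ _

theorem evP_X : evP lam s r X = gY lam s r := eval₂_X _ _

theorem evP_surj : Function.Surjective (evP lam s r) := by
  intro f
  obtain ⟨p, rfl⟩ := Ideal.Quotient.mk_surjective f
  show ∃ P, evP lam s r P = gpol lam (cS s) r p
  induction p using MvPolynomial.induction_on with
  | C c => exact ⟨C (C c), by rw [evP_C, evX_C]; rfl⟩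
  | add p q hp hq =>
    obtain ⟨P, hP⟩ := hp
    obtain ⟨Q, hQ⟩ := hq
    exact ⟨P + Q, by rw [map_add, map_add, hP, hQ]⟩
  | mul_X p i hp =>
    obtain ⟨P, hP⟩ := hp
    fin_cases i
    · exact ⟨P * C X, by rw [map_mul, map_mul, hP, evP_C, evX_X]; rfl⟩
    · exact ⟨P * X, by rw [map_mul, map_mul, hP, evP_X]; rfl⟩

/-- the monic equation of `y` over `K[x]` -/
noncomputable def qY : K[X][X] := ∏ e, (X - C (C (s e) * X + C (r e))) - C (C lam⁻¹)

variable {lam s r}

theorem evP_qY (hlam : lam ≠ 0) : evP lam s r (qY lam s r) = 0 := by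
  have h1 := prod_gu lam s r
  unfold qY
  rw [map_sub, map_prod, evP_C, evX_C, sub_eq_zero]
  have h2 : ∏ e, evP lam s r (X - C (C (s e) * X + C (r e))) =
      ∏ e, (gu lam (cS s) r e : PA lam s r) := by
    refine Finset.prod_congr rfl fun e _ => ?_
    rw [map_sub, evP_X, evP_C, map_add, map_mul, evX_C, evX_X, evX_C, gu_eq]
    ring
  rw [h2]
  have h3 : pc lam s r lam⁻¹ * pc lam s r lam = 1 := by
    rw [← map_mul, inv_mul_cancel₀ hlam, map_one]
  linear_combination (pc lam s r lam⁻¹) * h1 - (∏ e, (gu lam (cS s) r e : PA lam s r)) * h3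

theorem natDegree_prodY : (∏ e, (X - C (C (s e) * X + C (r e))) : K[X][X]).natDegree = m + 1 := by
  rw [natDegree_prod_of_monic _ _ fun e _ => monic_X_sub_C _,
    Finset.sum_congr rfl fun e _ => natDegree_X_sub_C _, Finset.sum_const, Finset.card_univ,
    Fintype.card_fin, smul_eq_mul, mul_one]

theorem monic_prodY : (∏ e, (X - C (C (s e) * X + C (r e))) : K[X][X]).Monic :=
  monic_prod_of_monic _ _ fun e _ => monic_X_sub_C _

theorem monic_qY : (qY lam s r).Monic := by
  unfold qY
  refine monic_prodY.sub_of_left ?_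
  refine lt_of_le_of_lt degree_C_le ?_
  rw [degree_eq_natDegree monic_prodY.ne_zero, natDegree_prodY]
  exact_mod_cast Nat.succ_pos m

theorem natDegree_qY : (qY lam s r).natDegree = m + 1 := by
  unfold qY
  rw [natDegree_sub_C, natDegree_prodY]

/-- every function is a polynomial of degree `≤ m` in `y` -/
theorem exists_rep (hlam : lam ≠ 0) (f : PA lam s r) :
    ∃ P : K[X][X], P.natDegree ≤ m ∧ f = evP lam s r P := by
  obtain ⟨P, rfl⟩ := evP_surj lam s r f
  refine ⟨P %ₘ qY lam s r, ?_, ?_⟩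
  · have h := natDegree_modByMonic_lt P (monic_qY (lam := lam) (s := s) (r := r)) (by
      intro h
      have h1 := natDegree_qY (lam := lam) (s := s) (r := r)
      rw [h, natDegree_one] at h1
      omega)
    rw [natDegree_qY] at h
    omega
  · conv_lhs => rw [← modByMonic_add_div P (qY lam s r)]
    rw [map_add, map_mul, evP_qY hlam, zero_mul, add_zero]

/-- If `x` and `y` are algebraic over the image of `K[X]`, every nonzero function divides a nonzero
polynomial. -/
theorem exists_dvd_of [IsDomain (PA lam s r)] (φ : K[X] →+* PA lam s r)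
    (hC : ∀ c, φ (C c) = pc lam s r c)
    (hx : ∃ P : K[X][X], P ≠ 0 ∧ P.eval₂ φ (gX lam s r) = 0)
    (hy : ∃ P : K[X][X], P ≠ 0 ∧ P.eval₂ φ (gY lam s r) = 0)
    {f : PA lam s r} (hf : f ≠ 0) : ∃ c : K[X], c ≠ 0 ∧ f ∣ φ c := by
  let _ : Algebra K[X] (PA lam s r) := φ.toAlgebra
  have hmap : ∀ p : K[X], algebraMap K[X] (PA lam s r) p = φ p := fun p => rfl
  have hev : ∀ (P : K[X][X]) (a : PA lam s r), aeval a P = P.eval₂ φ a := fun P a => rfl
  have ax : IsAlgebraic K[X] (gX lam s r) := by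
    obtain ⟨P, h1, h2⟩ := hx
    exact ⟨P, h1, by rw [hev]; exact h2⟩
  have ay : IsAlgebraic K[X] (gY lam s r) := by
    obtain ⟨P, h1, h2⟩ := hy
    exact ⟨P, h1, by rw [hev]; exact h2⟩
  have ac : ∀ c : K, IsAlgebraic K[X] (pc lam s r c) := fun c => by
    rw [← hC, ← hmap]
    exact isAlgebraic_algebraMap _
  have ap : ∀ p : K[X], IsAlgebraic K[X] (evX lam s r p) := by
    intro p
    induction p using Polynomial.induction_on' with
    | add p q hp hq => rw [map_add]; exact hp.add hq
    | monomial n c =>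
      rw [← C_mul_X_pow_eq_monomial, map_mul, map_pow, evX_C, evX_X]
      exact (ac c).mul (ax.pow n)
  have aP : ∀ P : K[X][X], IsAlgebraic K[X] (evP lam s r P) := by
    intro P
    induction P using Polynomial.induction_on' with
    | add p q hp hq => rw [map_add]; exact hp.add hq
    | monomial n c =>
      rw [← C_mul_X_pow_eq_monomial, map_mul, map_pow, evP_C, evP_X]
      exact (ap c).mul (ay.pow n)
  obtain ⟨P, rfl⟩ := evP_surj lam s r f
  obtain ⟨c, hc, h⟩ := (aP P).exists_nonzero_dvd (mem_nonZeroDivisors_of_ne_zero hf)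
  exact ⟨c, hc, h⟩

/-- every nonzero function divides a nonzero polynomial in `x` -/
theorem exists_dvd_x [IsDomain (PA lam s r)] (hlam : lam ≠ 0) {f : PA lam s r} (hf : f ≠ 0) :
    ∃ c : K[X], c ≠ 0 ∧ f ∣ evX lam s r c := by
  refine exists_dvd_of (evX lam s r) (fun c => evX_C _ _ _ c) ⟨X - C X, X_sub_C_ne_zero _, ?_⟩
    ⟨qY lam s r, monic_qY.ne_zero, evP_qY hlam⟩ hf
  rw [eval₂_sub, eval₂_X, eval₂_C, evX_X, sub_self]

/-- polynomials in `L_g` -/
noncomputable def evL (lam : K) (s r : Fin (m + 1) → K) (g : Fin (m + 1)) : K[X] →+* PA lam s r :=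
  eval₂RingHom (pc lam s r) (gu lam (cS s) r g)

theorem evL_C (g : Fin (m + 1)) (c : K) : evL lam s r g (C c) = pc lam s r c := eval₂_C _ _

theorem evL_X (g : Fin (m + 1)) : evL lam s r g X = gu lam (cS s) r g := eval₂_X _ _

/-- every nonzero function divides a nonzero polynomial in `L_g` -/
theorem exists_dvd_L [IsDomain (PA lam s r)] (g : Fin (m + 1))
    {f : PA lam s r} (hf : f ≠ 0) :
    ∃ c : K[X], c ≠ 0 ∧ f ∣ evL lam s r g c := by
  classical
  -- the equation of `x`
  set Q : K[X][X] := C (C lam) * ∏ e, (C X + C (C (s g - s e)) * X + C (C (r g - r e))) - 1 with hQ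
  have hQ0 : Q ≠ 0 := by
    intro h
    have h1 := congrArg (fun P : K[X][X] => (P.eval 0).eval 0) h
    simp only [hQ, eval_sub, eval_mul, eval_C, eval_prod, eval_add, eval_X, mul_zero,
      add_zero, eval_one, eval_zero, zero_add] at h1
    rw [Finset.prod_eq_zero (Finset.mem_univ g) (by simp)] at h1
    simp at h1
  have hQe : Q.eval₂ (evL lam s r g) (gX lam s r) = 0 := by
    rw [hQ, eval₂_sub, eval₂_mul, eval₂_C, evL_C, eval₂_one, eval₂_finsetProd]
    have h2 : ∏ e, (C X + C (C (s g - s e)) * X + C (C (r g - r e)) : K[X][X]).eval₂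
        (evL lam s r g) (gX lam s r) = ∏ e, (gu lam (cS s) r e : PA lam s r) := by
      refine Finset.prod_congr rfl fun e _ => ?_
      rw [eval₂_add, eval₂_add, eval₂_mul, eval₂_C, eval₂_C, eval₂_C, eval₂_X, evL_X, evL_C, evL_C,
        gu_eq, gu_eq, map_sub, map_sub]
      ring
    rw [h2, prod_gu, sub_self]
  -- substitute `x = (y - L_g - r_g) / s_g` in another way: `y = L_g + s_g x + r_g`
  have ax : ∃ P : K[X][X], P ≠ 0 ∧ P.eval₂ (evL lam s r g) (gX lam s r) = 0 := ⟨Q, hQ0, hQe⟩
  let _ : Algebra K[X] (PA lam s r) := (evL lam s r g).toAlgebra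
  have hev : ∀ (P : K[X][X]) (a : PA lam s r), aeval a P = P.eval₂ (evL lam s r g) a :=
    fun P a => rfl
  have hmap : ∀ p : K[X], algebraMap K[X] (PA lam s r) p = evL lam s r g p := fun p => rfl
  have ax' : IsAlgebraic K[X] (gX lam s r) := ⟨Q, hQ0, by rw [hev]; exact hQe⟩
  have ay' : IsAlgebraic K[X] (gY lam s r) := by
    have e : gY lam s r = evL lam s r g X + evL lam s r g (C (s g)) * gX lam s r +
        evL lam s r g (C (r g)) := by
      rw [evL_X, evL_C, evL_C, gu_eq]
      ring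
    rw [e, ← hmap, ← hmap, ← hmap]
    exact ((isAlgebraic_algebraMap _).add ((isAlgebraic_algebraMap _).mul ax')).add
      (isAlgebraic_algebraMap _)
  obtain ⟨R, hR0, hR⟩ := ay'
  exact exists_dvd_of (evL lam s r g) (fun c => evL_C g c) ax ⟨R, hR0, by rw [← hev]; exact hR⟩ hf

end Pool.Agent.X232.CF.P
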