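import Pool.Agent.X232.CF.P.Place
set_option autoImplicit false

/-!
The units of the coordinate ring of the plane curve `λ ∏_e (y - s_e x - r_e) = 1`.
-/

namespace Pool.Agent.X232.CF.P

open Polynomial

open Pool.Agent.TH826.GA (GRing gpol gcst gu coe_gu lf geqn gpol_geqn prod_gl cm isDomain_GRing)

open Pool.Agent.X232.CU (od_coe ti ti_ne_zero order_ti)

open Pool.Agent.X232.CF.E (PS PS_C ti_X order_X PS_ne eval_ti_ne oM ord_mul ord_zpow ord_pow
  ord_inv ord_prod)

variable {K : Type*} [Field K] {m : ℕ} {lam : K} {s : Fin (m + 1) → K} (r : Fin (m + 1) → K)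
  (e : Fin (m + 1)) (hlam : lam ≠ 0) (hs : Function.Injective s)

/-- The total degree is at most `N`. -/
def TD (P : K[X][X]) (N : ℕ) : Prop := ∀ i j, N < i + j → (P.coeff i).coeff j = 0

theorem exists_TD (P : K[X][X]) : ∃ N, TD P N := by
  refine ⟨P.natDegree + ∑ i ∈ Finset.range (P.natDegree + 1), (P.coeff i).natDegree,
    fun i j h => ?_⟩
  by_cases hi : P.natDegree < i
  · rw [coeff_eq_zero_of_natDegree_lt hi, coeff_zero]
  · push Not at hi
    refine coeff_eq_zero_of_natDegree_lt ?_
    have h1 : (P.coeff i).natDegree ≤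
        ∑ i ∈ Finset.range (P.natDegree + 1), (P.coeff i).natDegree :=
      Finset.single_le_sum (f := fun i => (P.coeff i).natDegree) (fun _ _ => Nat.zero_le _)
        (Finset.mem_range.2 (Nat.lt_succ_of_le hi))
    omega

/-- the leading part -/
noncomputable def Gs (P : K[X][X]) (N : ℕ) : PowerSeries K :=
  ∑ i ∈ Finset.range (N + 1), ∑ j ∈ Finset.range (N + 1),
    PowerSeries.C ((P.coeff i).coeff j) * PowerSeries.X ^ (N - i - j) * eta r e hlam hs ^ i

theorem eval_range {R : Type*} [CommRing R] {p : R[X]} {N : ℕ} (h : ∀ j, N < j → p.coeff j = 0)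
    {S : Type*} [CommRing S] (φ : R →+* S) (x : S) :
    p.eval₂ φ x = ∑ j ∈ Finset.range (N + 1), φ (p.coeff j) * x ^ j := by
  refine eval₂_eq_sum_range' φ ?_ x
  refine Nat.lt_succ_of_le ?_
  exact natDegree_le_iff_coeff_eq_zero.2 h

theorem pl_evP (P : K[X][X]) : pl r e hlam hs (evP lam s r P) =
    P.eval₂ (eval₂RingHom HahnSeries.C (ti K)) (yE r e hlam hs) := by
  unfold evP
  rw [coe_eval₂RingHom, hom_eval₂, pl_Y]
  congr 1
  refine Polynomial.ringHom_ext (fun c => ?_) ?_
  · show pl r e hlam hs (evX lam s r (C c)) = (C c).eval₂ HahnSeries.C (ti K)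
    rw [evX_C, pl_pc, eval₂_C]
  · show pl r e hlam hs (evX lam s r X) = X.eval₂ HahnSeries.C (ti K)
    rw [evX_X, pl_X, eval₂_X]

theorem pl_TD {P : K[X][X]} {N : ℕ} (h : TD P N) : pl r e hlam hs (evP lam s r P) =
    ti K ^ N * PS K (Gs r e hlam hs P N) := by
  rw [pl_evP, eval_range (N := N) fun j hj => by
    ext k
    rw [coeff_zero]
    exact h j k (by omega)]
  unfold Gs
  rw [map_sum, Finset.mul_sum]
  refine Finset.sum_congr rfl fun i hi => ?_
  have hi' := Finset.mem_range.1 hi
  rw [coe_eval₂RingHom, eval_range (N := N) fun k hk => h i k (by omega), map_sum, Finset.mul_sum,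
    Finset.sum_mul]
  refine Finset.sum_congr rfl fun j hj => ?_
  have hj' := Finset.mem_range.1 hj
  by_cases hij : N < i + j
  · rw [h i j hij]
    simp
  · push Not at hij
    unfold yE
    rw [map_mul, map_mul, map_pow, map_pow, PS_C, mul_pow]
    have e2 : ti K ^ N * PS K PowerSeries.X ^ (N - i - j) = ti K ^ (i + j) := by
      have : N = (i + j) + (N - i - j) := by omega
      conv_lhs => rw [this, pow_add]
      rw [show i + j + (N - i - j) - i - j = N - i - j by omega, mul_assoc, ← mul_pow, ti_X,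
        one_pow, mul_one]
    calc _ = HahnSeries.C ((P.coeff i).coeff j) * (ti K ^ (i + j)) *
        PS K (eta r e hlam hs) ^ i := by
          rw [pow_add]
          ring
      _ = _ := by
          rw [← e2]
          ring

/-- the polynomial of the leading part -/
noncomputable def Ph (P : K[X][X]) (N : ℕ) : K[X] :=
  ∑ i ∈ Finset.range (N + 1), C ((P.coeff i).coeff (N - i)) * X ^ i

theorem Gs_cc {P : K[X][X]} {N : ℕ} (h : TD P N) :
    PowerSeries.constantCoeff (Gs r e hlam hs P N) = (Ph P N).eval (s e) := by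
  unfold Gs Ph
  rw [map_sum, eval_finsetSum]
  refine Finset.sum_congr rfl fun i hi => ?_
  have hi' := Finset.mem_range.1 hi
  rw [map_sum, Finset.sum_eq_single (N - i)]
  · rw [map_mul, map_mul, map_pow, map_pow, eta_cc, Nat.sub_self, pow_zero, mul_one,
      PowerSeries.constantCoeff_C, eval_mul, eval_C, eval_pow, eval_X]
  · intro j hj hne
    have hj' := Finset.mem_range.1 hj
    rcases lt_or_gt_of_ne hne with h1 | h1
    · rw [map_mul, map_mul, map_pow, PowerSeries.constantCoeff_X, zero_pow (by omega), mul_zero,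
        zero_mul]
    · rw [h i j (by omega), map_zero, zero_mul, zero_mul, map_zero]
  · intro h1
    exact absurd (Finset.mem_range.2 (by omega)) h1

theorem Ph_coeff (P : K[X][X]) (N i : ℕ) (hi : i ≤ N) :
    (Ph P N).coeff i = (P.coeff i).coeff (N - i) := by
  unfold Ph
  rw [finsetSum_coeff, Finset.sum_eq_single i]
  · rw [coeff_C_mul, coeff_X_pow, if_pos rfl, mul_one]
  · intro j _ hj
    rw [coeff_C_mul, coeff_X_pow, if_neg (Ne.symm hj), mul_zero]
  · intro h
    exact absurd (Finset.mem_range.2 (by omega)) h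

theorem Ph_natDegree {P : K[X][X]} (hP : P.natDegree ≤ m) (N : ℕ) : (Ph P N).natDegree ≤ m := by
  rw [natDegree_le_iff_coeff_eq_zero]
  intro i hi
  by_cases h : i ≤ N
  · rw [Ph_coeff P N i h, coeff_eq_zero_of_natDegree_lt (lt_of_le_of_lt hP hi), coeff_zero]
  · unfold Ph
    rw [finsetSum_coeff]
    refine Finset.sum_eq_zero fun j hj => ?_
    have hj' := Finset.mem_range.1 hj
    rw [coeff_C_mul, coeff_X_pow, if_neg (by omega), mul_zero]

/-- functions without poles are constant -/
theorem const_of_TD {P : K[X][X]} (hP : P.natDegree ≤ m) (N : ℕ) (h : TD P N)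
    (ho : ∀ e, 0 ≤ (pl r e hlam hs (evP lam s r P)).order) :
    ∃ c, evP lam s r P = pc lam s r c := by
  induction N with
  | zero =>
    refine ⟨(P.coeff 0).coeff 0, ?_⟩
    have h1 : P = C (C ((P.coeff 0).coeff 0)) := by
      ext i j
      by_cases hi : i = 0
      · subst hi
        by_cases hj : j = 0
        · subst hj
          simp
        · rw [h 0 j (by omega), coeff_C_zero, coeff_C, if_neg hj]
      · rw [h i j (by omega), coeff_C, if_neg hi, coeff_zero]
    rw [h1, evP_C, evX_C]
    simp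
  | succ N ih =>
    refine ih fun i j hij => ?_
    by_cases hij' : N + 1 < i + j
    · exact h i j hij'
    have hsum : i + j = N + 1 := by omega
    have hz : Ph P (N + 1) = 0 := by
      refine eq_zero_of_natDegree_lt_card_of_eval_eq_zero (Ph P (N + 1)) hs (fun e => ?_) ?_
      · by_contra hne
        have h1 := ho e
        rw [pl_TD r e hlam hs h] at h1
        rw [← Gs_cc r e hlam hs h] at hne
        rw [HahnSeries.order_mul (pow_ne_zero _ ti_ne_zero) (PS_ne hne), od_coe hne,
          HahnSeries.order_pow, order_ti] at h1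
        simp only [nsmul_eq_mul] at h1
        push_cast at h1
        omega
      · rw [Fintype.card_fin]
        exact Nat.lt_succ_of_le (Ph_natDegree hP (N + 1))
    have h2 := Ph_coeff P (N + 1) i (by omega)
    rw [hz, coeff_zero] at h2
    have h3 : j = N + 1 - i := by omega
    rw [h3]
    exact h2.symm

theorem const_of_order {f : PA lam s r} (ho : ∀ e, 0 ≤ (pl r e hlam hs f).order) :
    ∃ c, f = pc lam s r c := by
  obtain ⟨P, hP, rfl⟩ := exists_rep hlam f
  obtain ⟨N, hN⟩ := exists_TD P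
  exact const_of_TD r hlam hs hP N hN ho

theorem const_unit (hm : 1 ≤ m) {g : (PA lam s r)ˣ}
    (ho : ∀ e, 0 ≤ (pl r e hlam hs (g : PA lam s r)).order) :
    ∃ c : Kˣ, g = cu (pc lam s r) c := by
  have hdom : IsDomain (PA lam s r) := isDomain_PA hs hm hlam
  obtain ⟨c, hc⟩ := const_of_order r hlam hs ho
  have hc0 : c ≠ 0 := by
    rintro rfl
    rw [map_zero] at hc
    exact g.ne_zero hc
  exact ⟨Units.mk0 c hc0, Units.ext hc⟩

theorem ord_gu (g : Fin (m + 1)) : (pl r e hlam hs (gu lam (cS s) r g : PA lam s r)).order =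
    (if g = e then (m : ℤ) + 1 else 0) - 1 := by
  by_cases h : g = e
  · subst h
    rw [if_pos rfl, pl_gu_self]
    ring
  · rw [if_neg h, pl_gu_ne r e hlam hs h]
    rfl

/-- the generators -/
noncomputable def gensP (lam : K) (s r : Fin (m + 1) → K) (j : Fin m) : (PA lam s r)ˣ :=
  gu lam (cS s) r j.succ

theorem prod_gu_unit (lam : K) (hlam : lam ≠ 0) (s r : Fin (m + 1) → K) :
    cu (pc lam s r) (Units.mk0 lam hlam) * ∏ e, gu lam (cS s) r e = 1 := by
  ext
  rw [Units.val_mul, Units.coe_prod, coe_cu, Units.val_mk0, Units.val_one]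
  exact prod_gu lam s r

include hlam hs in
/-- the units -/
theorem units_P (hm : 1 ≤ m) (f : (PA lam s r)ˣ) : ∃ (N : ℕ) (n : Fin m → ℤ) (c : Kˣ), 0 < N ∧
    f ^ N = cu (pc lam s r) c * ∏ j, gensP lam s r j ^ n j := by
  set o : Fin (m + 1) → ℤ := fun e => (pl r e hlam hs (f : PA lam s r)).order with ho
  set g : (PA lam s r)ˣ := f ^ (m + 1) * (∏ e, gu lam (cS s) r e ^ o e)⁻¹ with hg
  have hord : ∀ e, (pl r e hlam hs (g : PA lam s r)).order = ∑ e, o e := by
    intro e
    rw [hg, ord_mul, ord_inv, ord_prod, ord_pow]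
    have h1 : ∀ g, (pl r e hlam hs ((gu lam (cS s) r g ^ o g : (PA lam s r)ˣ) :
        PA lam s r)).order = (if g = e then ((m : ℤ) + 1) * o e else 0) - o g := by
      intro g
      rw [ord_zpow, ord_gu]
      by_cases h : g = e
      · subst h
        rw [if_pos rfl, if_pos rfl]
        ring
      · rw [if_neg h, if_neg h]
        ring
    simp only [h1]
    rw [Finset.sum_sub_distrib, Finset.sum_ite_eq' Finset.univ e, if_pos (Finset.mem_univ e)]
    push_cast
    show ((m : ℤ) + 1) * o e + -(((m : ℤ) + 1) * o e - ∑ e, o e) = _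
    ring
  have hfin : ∃ c : Kˣ, g = cu (pc lam s r) c := by
    rcases le_total 0 (∑ e, o e) with hS | hS
    · exact const_unit r hlam hs hm fun e => by rw [hord]; exact hS
    · obtain ⟨c, hc⟩ := const_unit r hlam hs hm (g := g⁻¹) fun e => by
        rw [ord_inv, hord]
        omega
      exact ⟨c⁻¹, by rw [map_inv, ← hc, inv_inv]⟩
  obtain ⟨c, hc⟩ := hfin
  have h1 : f ^ (m + 1) = cu (pc lam s r) c * ∏ e, gu lam (cS s) r e ^ o e := by
    rw [← hc, hg, inv_mul_cancel_right]
  have h0 : gu lam (cS s) r 0 = (cu (pc lam s r) (Units.mk0 lam hlam))⁻¹ *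
      (∏ j, gensP lam s r j)⁻¹ := by
    have h2 := prod_gu_unit lam hlam s r
    rw [Fin.prod_univ_succ] at h2
    have h3 : cu (pc lam s r) (Units.mk0 lam hlam) * (gu lam (cS s) r 0 *
        ∏ j, gensP lam s r j) = 1 := h2
    rw [← mul_inv, eq_inv_iff_mul_eq_one, ← h3]
    exact mul_left_comm _ _ _
  refine ⟨m + 1, fun j => o j.succ - o 0, c * (Units.mk0 lam hlam ^ o 0)⁻¹, Nat.succ_pos m, ?_⟩
  rw [h1, Fin.prod_univ_succ, h0, map_mul, map_inv, map_zpow, mul_zpow, inv_zpow, inv_zpow,
    ← Finset.prod_zpow]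
  have h4 : ∏ j, gensP lam s r j ^ (o j.succ - o 0) = (∏ j, gensP lam s r j ^ o j.succ) *
      (∏ j, gensP lam s r j ^ o 0)⁻¹ := by
    rw [← Finset.prod_inv_distrib, ← Finset.prod_mul_distrib]
    exact Finset.prod_congr rfl fun j _ => zpow_sub _ _ _
  rw [h4]
  show _ * (_ * _ * ∏ j, gensP lam s r j ^ o j.succ) = _
  rw [mul_assoc, mul_assoc]
  congr 2
  exact mul_comm _ _

theorem rank_P [CharZero K] (v : Fin m → ℚ)
    (h : ∀ e, ∑ j, ((pl r e hlam hs (gensP lam s r j : PA lam s r)).order : ℚ) * v j = 0) :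
    v = 0 := by
  have h1 : ∀ e (j : Fin m), ((pl r e hlam hs (gensP lam s r j : PA lam s r)).order : ℚ) * v j =
      (if j.succ = e then ((m : ℚ) + 1) * v j else 0) - v j := by
    intro e j
    unfold gensP
    rw [ord_gu]
    by_cases h : j.succ = e
    · rw [if_pos h, if_pos h]
      push_cast
      ring
    · rw [if_neg h, if_neg h]
      push_cast
      ring
  simp only [h1, Finset.sum_sub_distrib] at h
  have h0 : ∑ j, v j = 0 := by
    have h2 := h 0
    rw [Finset.sum_eq_zero fun j _ => if_neg (Fin.succ_ne_zero j)] at h2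
    linarith
  funext i
  have h3 := h i.succ
  simp only [Fin.succ_inj] at h3
  rw [Finset.sum_ite_eq' Finset.univ i, if_pos (Finset.mem_univ i), h0, sub_zero] at h3
  rcases mul_eq_zero.1 h3 with h4 | h4
  · exfalso
    have : (0 : ℚ) < (m : ℚ) + 1 := by positivity
    linarith
  · exact h4

theorem unif_P : ∃ a, (pl r e hlam hs a).order = 1 ∨ (pl r e hlam hs a).order = -1 :=
  ⟨gX lam s r, Or.inr (by rw [pl_X, order_ti])⟩

end Pool.Agent.X232.CF.P
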